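import Mathlib
import Pool.Agent.helper35.Hz.Sdefs

/-! # Equivariance of the push homomorphism under the twist along `μ_{i,i+1}` -/

namespace Pool.Agent.helper15.Hz

open Pool.Agent.helper35.Hz

variable {g m i : ℕ}

/-- the curve `μ_{i,i+1}` -/
def mw (g i : ℕ) : FG g := gb g i * (ga g i)⁻¹ * (gb g i)⁻¹ * ga g (i + 1)

theorem mu_mw (g i : ℕ) : mu g i (i + 1) = mw g i := by
  simp [mu, mw, zr_self]

theorem T_ga (hi : i + 1 < g) {x : ℕ} (hx : x < g) :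
    tauM g i (i + 1) (ga g x) = if x = i + 1 then mw g i * ga g x * (mw g i)⁻¹ else ga g x := by
  have h : i < i + 1 ∧ i + 1 < g := ⟨by omega, hi⟩
  rw [tauM, dif_pos h, tw_ga hx, mu_mw]
  by_cases h1 : x = i + 1
  · subst h1
    simp [αM, βM]
  · have h2 : ¬ (i < x ∧ x < i + 1) := by omega
    have h3 : ¬ (i < x ∧ x ≤ i + 1) := by omega
    simp [αM, βM, h1, h2, h3]

theorem T_gb (hi : i + 1 < g) {x : ℕ} (hx : x < g) :
    tauM g i (i + 1) (gb g x) = if x = i then mw g i * gb g x else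
      if x = i + 1 then gb g x * (mw g i)⁻¹ else gb g x := by
  have h : i < i + 1 ∧ i + 1 < g := ⟨by omega, hi⟩
  rw [tauM, dif_pos h, tw_gb hx, mu_mw]
  by_cases h1 : x = i + 1
  · subst h1
    simp [αM, βM]
  · by_cases h0 : x = i
    · subst h0
      simp [αM, βM]
    · have h2 : ¬ (i < x ∧ x < i + 1) := by omega
      have h3 : ¬ (i < x ∧ x ≤ i + 1) := by omega
      simp [αM, βM, h0, h1, h2, h3]

theorem A_ga (i : ℕ) {x : ℕ} (hx : x < g) : tauA g i (ga g x) = ga g x := by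
  rw [tauA, tw_ga hx]; simp [bA]

theorem A_gb (i : ℕ) {x : ℕ} (hx : x < g) :
    tauA g i (gb g x) = if x = i then gb g x * (ga g x)⁻¹ else gb g x := by
  rw [tauA, tw_gb hx]
  by_cases h : x = i
  · subst h; simp [bA]
  · simp [bA, h]


section
variable (h : i < m ∧ m < g)
include h

theorem sA_ga {l : ℕ} (hl : l < g) : (pushA g m i).symm (ga g l) = pAA' g m i l := pushA_inv_ga h hl
theorem sA_gb {l : ℕ} (hl : l < g) : (pushA g m i).symm (gb g l) = pAB' g m i l := pushA_inv_gb h hl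
theorem sB_ga {l : ℕ} (hl : l < g) : (pushB g m i).symm (ga g l) = pBA' g m i l := pushB_inv_ga h hl
theorem sB_gb {l : ℕ} (hl : l < g) : (pushB g m i).symm (gb g l) = pBB' g m i l := pushB_inv_gb h hl

end

/-- the inverse of the push along `μ_{i,i+1}` -/
def PMi (g m i : ℕ) : MulAut (FG g) :=
  (pushA g m (i + 1))⁻¹ * pushB g m i * pushA g m i * (pushB g m i)⁻¹

section
variable (hi : i + 1 < m) (hm : m < g)
include hi hm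

theorem PMi_ga {x : ℕ} (hx : x < g) :
    PMi g m i (ga g x) =
      if x = i + 1 then (mw g i * ga g m * (mw g i)⁻¹) * ga g x * (mw g i * ga g m * (mw g i)⁻¹)⁻¹ else
      if i + 1 < x ∧ x < m then (mw g i * ga g m * (mw g i)⁻¹ * (ga g m)⁻¹) * ga g x *
        (mw g i * ga g m * (mw g i)⁻¹ * (ga g m)⁻¹)⁻¹ else
      if x = m then mw g i * ga g m * (mw g i)⁻¹ else ga g x := by
  have h0 : i < m ∧ m < g := ⟨by omega, hm⟩
  have h1 : i + 1 < m ∧ m < g := ⟨hi, hm⟩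
  have k0 : i < g := by omega
  have k1 : i + 1 < g := by omega
  have e1 : ¬ (m = i) := by omega
  have e2 : ¬ (m = i + 1) := by omega
  have e3 : ¬ (m < m) := by omega
  have e4 : ¬ (i + 1 = m) := by omega
  have e5 : ¬ (i = m) := by omega
  have e6 : i < m := by omega
  unfold PMi
  simp only [MulAut.mul_apply]
  by_cases c1 : x = i + 1
  · subst c1
    simp [pushA_ga h0 k0, pushA_gb h0 k0, pushB_ga h0 k0, pushB_gb h0 k0, sB_ga h0 k0, sB_gb h0 k0, sA_ga h1 k0, sA_gb h1 k0, pushA_ga h0 k1, pushA_gb h0 k1, pushB_ga h0 k1, pushB_gb h0 k1, sB_ga h0 k1, sB_gb h0 k1, sA_ga h1 k1, sA_gb h1 k1, pushA_ga h0 hm, pushA_gb h0 hm, pushB_ga h0 hm, pushB_gb h0 hm, sB_ga h0 hm, sB_gb h0 hm, sA_ga h1 hm, sA_gb h1 hm, pAA, pAB, pAA', pAB', pBA, pBB, pBA', pBB', e1, e2, e3, e4, e5, e6, hi, mw, mul_assoc]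
  by_cases c0 : x = i
  · subst c0
    simp [pushA_ga h0 k0, pushA_gb h0 k0, pushB_ga h0 k0, pushB_gb h0 k0, sB_ga h0 k0, sB_gb h0 k0, sA_ga h1 k0, sA_gb h1 k0, pushA_ga h0 k1, pushA_gb h0 k1, pushB_ga h0 k1, pushB_gb h0 k1, sB_ga h0 k1, sB_gb h0 k1, sA_ga h1 k1, sA_gb h1 k1, pushA_ga h0 hm, pushA_gb h0 hm, pushB_ga h0 hm, pushB_gb h0 hm, sB_ga h0 hm, sB_gb h0 hm, sA_ga h1 hm, sA_gb h1 hm, pAA, pAB, pAA', pAB', pBA, pBB, pBA', pBB', e1, e2, e3, e4, e5, e6, hi, mw, mul_assoc]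
  by_cases c2 : x = m
  · subst c2
    simp [pushA_ga h0 k0, pushA_gb h0 k0, pushB_ga h0 k0, pushB_gb h0 k0, sB_ga h0 k0, sB_gb h0 k0, sA_ga h1 k0, sA_gb h1 k0, pushA_ga h0 k1, pushA_gb h0 k1, pushB_ga h0 k1, pushB_gb h0 k1, sB_ga h0 k1, sB_gb h0 k1, sA_ga h1 k1, sA_gb h1 k1, pushA_ga h0 hm, pushA_gb h0 hm, pushB_ga h0 hm, pushB_gb h0 hm, sB_ga h0 hm, sB_gb h0 hm, sA_ga h1 hm, sA_gb h1 hm, pAA, pAB, pAA', pAB', pBA, pBB, pBA', pBB', e1, e2, e3, e4, e5, e6, hi, mw, mul_assoc]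
  by_cases c3 : x < i
  · have f1 : ¬ (i < x) := by omega
    have f2 : ¬ (i + 1 < x) := by omega
    simp [pushA_ga h0 k0, pushA_gb h0 k0, pushB_ga h0 k0, pushB_gb h0 k0, sB_ga h0 k0, sB_gb h0 k0, sA_ga h1 k0, sA_gb h1 k0, pushA_ga h0 k1, pushA_gb h0 k1, pushB_ga h0 k1, pushB_gb h0 k1, sB_ga h0 k1, sB_gb h0 k1, sA_ga h1 k1, sA_gb h1 k1, pushA_ga h0 hm, pushA_gb h0 hm, pushB_ga h0 hm, pushB_gb h0 hm, sB_ga h0 hm, sB_gb h0 hm, sA_ga h1 hm, sA_gb h1 hm, pAA, pAB, pAA', pAB', pBA, pBB, pBA', pBB', e1, e2, e3, e4, e5, e6, hi, mw, mul_assoc, pushA_ga h0 hx, pushA_gb h0 hx, pushB_ga h0 hx, pushB_gb h0 hx, sB_ga h0 hx, sB_gb h0 hx, sA_ga h1 hx, sA_gb h1 hx, c0, c1, c2, c3, f1, f2]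
  by_cases c4 : x < m
  · have f1 : i < x := by omega
    have f2 : i + 1 < x := by omega
    simp [pushA_ga h0 k0, pushA_gb h0 k0, pushB_ga h0 k0, pushB_gb h0 k0, sB_ga h0 k0, sB_gb h0 k0, sA_ga h1 k0, sA_gb h1 k0, pushA_ga h0 k1, pushA_gb h0 k1, pushB_ga h0 k1, pushB_gb h0 k1, sB_ga h0 k1, sB_gb h0 k1, sA_ga h1 k1, sA_gb h1 k1, pushA_ga h0 hm, pushA_gb h0 hm, pushB_ga h0 hm, pushB_gb h0 hm, sB_ga h0 hm, sB_gb h0 hm, sA_ga h1 hm, sA_gb h1 hm, pAA, pAB, pAA', pAB', pBA, pBB, pBA', pBB', e1, e2, e3, e4, e5, e6, hi, mw, mul_assoc, pushA_ga h0 hx, pushA_gb h0 hx, pushB_ga h0 hx, pushB_gb h0 hx, sB_ga h0 hx, sB_gb h0 hx, sA_ga h1 hx, sA_gb h1 hx, c0, c1, c2, c3, c4, f1, f2]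
  · have f1 : i < x := by omega
    have f2 : i + 1 < x := by omega
    simp [pushA_ga h0 k0, pushA_gb h0 k0, pushB_ga h0 k0, pushB_gb h0 k0, sB_ga h0 k0, sB_gb h0 k0, sA_ga h1 k0, sA_gb h1 k0, pushA_ga h0 k1, pushA_gb h0 k1, pushB_ga h0 k1, pushB_gb h0 k1, sB_ga h0 k1, sB_gb h0 k1, sA_ga h1 k1, sA_gb h1 k1, pushA_ga h0 hm, pushA_gb h0 hm, pushB_ga h0 hm, pushB_gb h0 hm, sB_ga h0 hm, sB_gb h0 hm, sA_ga h1 hm, sA_gb h1 hm, pAA, pAB, pAA', pAB', pBA, pBB, pBA', pBB', e1, e2, e3, e4, e5, e6, hi, mw, mul_assoc, pushA_ga h0 hx, pushA_gb h0 hx, pushB_ga h0 hx, pushB_gb h0 hx, sB_ga h0 hx, sB_gb h0 hx, sA_ga h1 hx, sA_gb h1 hx, c0, c1, c2, c3, c4, f1, f2]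

theorem PMi_gb {x : ℕ} (hx : x < g) :
    PMi g m i (gb g x) =
      if x = i then mw g i * ga g m * (mw g i)⁻¹ * gb g i else
      if x = i + 1 then mw g i * ga g m * (mw g i)⁻¹ * (ga g m)⁻¹ * gb g x *
        (mw g i * ga g m * (mw g i)⁻¹)⁻¹ else
      if i + 1 < x ∧ x < m then (mw g i * ga g m * (mw g i)⁻¹ * (ga g m)⁻¹) * gb g x *
        (mw g i * ga g m * (mw g i)⁻¹ * (ga g m)⁻¹)⁻¹ else
      if x = m then gb g m * (ga g m)⁻¹ * (ga g m)⁻¹ * (mw g i)⁻¹ else gb g x := by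
  have h0 : i < m ∧ m < g := ⟨by omega, hm⟩
  have h1 : i + 1 < m ∧ m < g := ⟨hi, hm⟩
  have k0 : i < g := by omega
  have k1 : i + 1 < g := by omega
  have e1 : ¬ (m = i) := by omega
  have e2 : ¬ (m = i + 1) := by omega
  have e3 : ¬ (m < m) := by omega
  have e4 : ¬ (i + 1 = m) := by omega
  have e5 : ¬ (i = m) := by omega
  have e6 : i < m := by omega
  unfold PMi
  simp only [MulAut.mul_apply]
  by_cases c1 : x = i + 1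
  · subst c1
    simp [pushA_ga h0 k0, pushA_gb h0 k0, pushB_ga h0 k0, pushB_gb h0 k0, sB_ga h0 k0, sB_gb h0 k0, sA_ga h1 k0, sA_gb h1 k0, pushA_ga h0 k1, pushA_gb h0 k1, pushB_ga h0 k1, pushB_gb h0 k1, sB_ga h0 k1, sB_gb h0 k1, sA_ga h1 k1, sA_gb h1 k1, pushA_ga h0 hm, pushA_gb h0 hm, pushB_ga h0 hm, pushB_gb h0 hm, sB_ga h0 hm, sB_gb h0 hm, sA_ga h1 hm, sA_gb h1 hm, pAA, pAB, pAA', pAB', pBA, pBB, pBA', pBB', e1, e2, e3, e4, e5, e6, hi, mw, mul_assoc]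
  by_cases c0 : x = i
  · subst c0
    simp [pushA_ga h0 k0, pushA_gb h0 k0, pushB_ga h0 k0, pushB_gb h0 k0, sB_ga h0 k0, sB_gb h0 k0, sA_ga h1 k0, sA_gb h1 k0, pushA_ga h0 k1, pushA_gb h0 k1, pushB_ga h0 k1, pushB_gb h0 k1, sB_ga h0 k1, sB_gb h0 k1, sA_ga h1 k1, sA_gb h1 k1, pushA_ga h0 hm, pushA_gb h0 hm, pushB_ga h0 hm, pushB_gb h0 hm, sB_ga h0 hm, sB_gb h0 hm, sA_ga h1 hm, sA_gb h1 hm, pAA, pAB, pAA', pAB', pBA, pBB, pBA', pBB', e1, e2, e3, e4, e5, e6, hi, mw, mul_assoc]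
  by_cases c2 : x = m
  · subst c2
    simp [pushA_ga h0 k0, pushA_gb h0 k0, pushB_ga h0 k0, pushB_gb h0 k0, sB_ga h0 k0, sB_gb h0 k0, sA_ga h1 k0, sA_gb h1 k0, pushA_ga h0 k1, pushA_gb h0 k1, pushB_ga h0 k1, pushB_gb h0 k1, sB_ga h0 k1, sB_gb h0 k1, sA_ga h1 k1, sA_gb h1 k1, pushA_ga h0 hm, pushA_gb h0 hm, pushB_ga h0 hm, pushB_gb h0 hm, sB_ga h0 hm, sB_gb h0 hm, sA_ga h1 hm, sA_gb h1 hm, pAA, pAB, pAA', pAB', pBA, pBB, pBA', pBB', e1, e2, e3, e4, e5, e6, hi, mw, mul_assoc]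
  by_cases c3 : x < i
  · have f1 : ¬ (i < x) := by omega
    have f2 : ¬ (i + 1 < x) := by omega
    simp [pushA_ga h0 k0, pushA_gb h0 k0, pushB_ga h0 k0, pushB_gb h0 k0, sB_ga h0 k0, sB_gb h0 k0, sA_ga h1 k0, sA_gb h1 k0, pushA_ga h0 k1, pushA_gb h0 k1, pushB_ga h0 k1, pushB_gb h0 k1, sB_ga h0 k1, sB_gb h0 k1, sA_ga h1 k1, sA_gb h1 k1, pushA_ga h0 hm, pushA_gb h0 hm, pushB_ga h0 hm, pushB_gb h0 hm, sB_ga h0 hm, sB_gb h0 hm, sA_ga h1 hm, sA_gb h1 hm, pAA, pAB, pAA', pAB', pBA, pBB, pBA', pBB', e1, e2, e3, e4, e5, e6, hi, mw, mul_assoc, pushA_ga h0 hx, pushA_gb h0 hx, pushB_ga h0 hx, pushB_gb h0 hx, sB_ga h0 hx, sB_gb h0 hx, sA_ga h1 hx, sA_gb h1 hx, c0, c1, c2, c3, f1, f2]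
  by_cases c4 : x < m
  · have f1 : i < x := by omega
    have f2 : i + 1 < x := by omega
    simp [pushA_ga h0 k0, pushA_gb h0 k0, pushB_ga h0 k0, pushB_gb h0 k0, sB_ga h0 k0, sB_gb h0 k0, sA_ga h1 k0, sA_gb h1 k0, pushA_ga h0 k1, pushA_gb h0 k1, pushB_ga h0 k1, pushB_gb h0 k1, sB_ga h0 k1, sB_gb h0 k1, sA_ga h1 k1, sA_gb h1 k1, pushA_ga h0 hm, pushA_gb h0 hm, pushB_ga h0 hm, pushB_gb h0 hm, sB_ga h0 hm, sB_gb h0 hm, sA_ga h1 hm, sA_gb h1 hm, pAA, pAB, pAA', pAB', pBA, pBB, pBA', pBB', e1, e2, e3, e4, e5, e6, hi, mw, mul_assoc, pushA_ga h0 hx, pushA_gb h0 hx, pushB_ga h0 hx, pushB_gb h0 hx, sB_ga h0 hx, sB_gb h0 hx, sA_ga h1 hx, sA_gb h1 hx, c0, c1, c2, c3, c4, f1, f2]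
  · have f1 : i < x := by omega
    have f2 : i + 1 < x := by omega
    simp [pushA_ga h0 k0, pushA_gb h0 k0, pushB_ga h0 k0, pushB_gb h0 k0, sB_ga h0 k0, sB_gb h0 k0, sA_ga h1 k0, sA_gb h1 k0, pushA_ga h0 k1, pushA_gb h0 k1, pushB_ga h0 k1, pushB_gb h0 k1, sB_ga h0 k1, sB_gb h0 k1, sA_ga h1 k1, sA_gb h1 k1, pushA_ga h0 hm, pushA_gb h0 hm, pushB_ga h0 hm, pushB_gb h0 hm, sB_ga h0 hm, sB_gb h0 hm, sA_ga h1 hm, sA_gb h1 hm, pAA, pAB, pAA', pAB', pBA, pBB, pBA', pBB', e1, e2, e3, e4, e5, e6, hi, mw, mul_assoc, pushA_ga h0 hx, pushA_gb h0 hx, pushB_ga h0 hx, pushB_gb h0 hx, sB_ga h0 hx, sB_gb h0 hx, sA_ga h1 hx, sA_gb h1 hx, c0, c1, c2, c3, c4, f1, f2]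

theorem Q_ga {x : ℕ} (hx : x < g) :
    (PMi g m i * tauM g i (i + 1)) (ga g x) =
      if x = i + 1 then (mw g i * ga g m) * ga g x * (mw g i * ga g m)⁻¹ else
      if i + 1 < x ∧ x < m then (mw g i * ga g m * (mw g i)⁻¹ * (ga g m)⁻¹) * ga g x *
        (mw g i * ga g m * (mw g i)⁻¹ * (ga g m)⁻¹)⁻¹ else
      if x = m then mw g i * ga g m * (mw g i)⁻¹ else ga g x := by
  have h0 : i < m ∧ m < g := ⟨by omega, hm⟩
  have h1 : i + 1 < m ∧ m < g := ⟨hi, hm⟩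
  have k0 : i < g := by omega
  have k1 : i + 1 < g := by omega
  have e1 : ¬ (m = i) := by omega
  have e2 : ¬ (m = i + 1) := by omega
  have e3 : ¬ (m < m) := by omega
  have e4 : ¬ (i + 1 = m) := by omega
  have e5 : ¬ (i = m) := by omega
  have e6 : i < m := by omega
  simp only [MulAut.mul_apply]
  by_cases c1 : x = i + 1
  · subst c1
    simp [PMi_ga hi hm k0, PMi_gb hi hm k0, PMi_ga hi hm k1, PMi_gb hi hm k1, PMi_ga hi hm hm, PMi_gb hi hm hm, T_ga k1 k0, T_ga k1 k1, T_ga k1 hm, T_gb k1 k0, T_gb k1 k1, T_gb k1 hm, e1, e2, e3, e4, e5, e6, hi, mw, mul_assoc]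
  by_cases c0 : x = i
  · subst c0
    simp [PMi_ga hi hm k0, PMi_gb hi hm k0, PMi_ga hi hm k1, PMi_gb hi hm k1, PMi_ga hi hm hm, PMi_gb hi hm hm, T_ga k1 k0, T_ga k1 k1, T_ga k1 hm, T_gb k1 k0, T_gb k1 k1, T_gb k1 hm, e1, e2, e3, e4, e5, e6, hi, mw, mul_assoc]
  by_cases c2 : x = m
  · subst c2
    simp [PMi_ga hi hm k0, PMi_gb hi hm k0, PMi_ga hi hm k1, PMi_gb hi hm k1, PMi_ga hi hm hm, PMi_gb hi hm hm, T_ga k1 k0, T_ga k1 k1, T_ga k1 hm, T_gb k1 k0, T_gb k1 k1, T_gb k1 hm, e1, e2, e3, e4, e5, e6, hi, mw, mul_assoc]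
  by_cases c3 : x < i
  · have f1 : ¬ (i < x) := by omega
    have f2 : ¬ (i + 1 < x) := by omega
    simp [PMi_ga hi hm k0, PMi_gb hi hm k0, PMi_ga hi hm k1, PMi_gb hi hm k1, PMi_ga hi hm hm, PMi_gb hi hm hm, T_ga k1 k0, T_ga k1 k1, T_ga k1 hm, T_gb k1 k0, T_gb k1 k1, T_gb k1 hm, e1, e2, e3, e4, e5, e6, hi, mw, mul_assoc, PMi_ga hi hm hx, PMi_gb hi hm hx, T_ga k1 hx, T_gb k1 hx, c0, c1, c2, c3, f1, f2]
  by_cases c4 : x < m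
  · have f1 : i < x := by omega
    have f2 : i + 1 < x := by omega
    simp [PMi_ga hi hm k0, PMi_gb hi hm k0, PMi_ga hi hm k1, PMi_gb hi hm k1, PMi_ga hi hm hm, PMi_gb hi hm hm, T_ga k1 k0, T_ga k1 k1, T_ga k1 hm, T_gb k1 k0, T_gb k1 k1, T_gb k1 hm, e1, e2, e3, e4, e5, e6, hi, mw, mul_assoc, PMi_ga hi hm hx, PMi_gb hi hm hx, T_ga k1 hx, T_gb k1 hx, c0, c1, c2, c3, c4, f1, f2]
  · have f1 : i < x := by omega
    have f2 : i + 1 < x := by omega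
    simp [PMi_ga hi hm k0, PMi_gb hi hm k0, PMi_ga hi hm k1, PMi_gb hi hm k1, PMi_ga hi hm hm, PMi_gb hi hm hm, T_ga k1 k0, T_ga k1 k1, T_ga k1 hm, T_gb k1 k0, T_gb k1 k1, T_gb k1 hm, e1, e2, e3, e4, e5, e6, hi, mw, mul_assoc, PMi_ga hi hm hx, PMi_gb hi hm hx, T_ga k1 hx, T_gb k1 hx, c0, c1, c2, c3, c4, f1, f2]

theorem Q_gb {x : ℕ} (hx : x < g) :
    (PMi g m i * tauM g i (i + 1)) (gb g x) =
      if x = i then mw g i * ga g m * gb g i else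
      if x = i + 1 then mw g i * ga g m * (mw g i)⁻¹ * (ga g m)⁻¹ * gb g x * (mw g i * ga g m)⁻¹ else
      if i + 1 < x ∧ x < m then (mw g i * ga g m * (mw g i)⁻¹ * (ga g m)⁻¹) * gb g x *
        (mw g i * ga g m * (mw g i)⁻¹ * (ga g m)⁻¹)⁻¹ else
      if x = m then gb g m * (ga g m)⁻¹ * (ga g m)⁻¹ * (mw g i)⁻¹ else gb g x := by
  have h0 : i < m ∧ m < g := ⟨by omega, hm⟩
  have h1 : i + 1 < m ∧ m < g := ⟨hi, hm⟩
  have k0 : i < g := by omega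
  have k1 : i + 1 < g := by omega
  have e1 : ¬ (m = i) := by omega
  have e2 : ¬ (m = i + 1) := by omega
  have e3 : ¬ (m < m) := by omega
  have e4 : ¬ (i + 1 = m) := by omega
  have e5 : ¬ (i = m) := by omega
  have e6 : i < m := by omega
  simp only [MulAut.mul_apply]
  by_cases c1 : x = i + 1
  · subst c1
    simp [PMi_ga hi hm k0, PMi_gb hi hm k0, PMi_ga hi hm k1, PMi_gb hi hm k1, PMi_ga hi hm hm, PMi_gb hi hm hm, T_ga k1 k0, T_ga k1 k1, T_ga k1 hm, T_gb k1 k0, T_gb k1 k1, T_gb k1 hm, e1, e2, e3, e4, e5, e6, hi, mw, mul_assoc]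
  by_cases c0 : x = i
  · subst c0
    simp [PMi_ga hi hm k0, PMi_gb hi hm k0, PMi_ga hi hm k1, PMi_gb hi hm k1, PMi_ga hi hm hm, PMi_gb hi hm hm, T_ga k1 k0, T_ga k1 k1, T_ga k1 hm, T_gb k1 k0, T_gb k1 k1, T_gb k1 hm, e1, e2, e3, e4, e5, e6, hi, mw, mul_assoc]
  by_cases c2 : x = m
  · subst c2
    simp [PMi_ga hi hm k0, PMi_gb hi hm k0, PMi_ga hi hm k1, PMi_gb hi hm k1, PMi_ga hi hm hm, PMi_gb hi hm hm, T_ga k1 k0, T_ga k1 k1, T_ga k1 hm, T_gb k1 k0, T_gb k1 k1, T_gb k1 hm, e1, e2, e3, e4, e5, e6, hi, mw, mul_assoc]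
  by_cases c3 : x < i
  · have f1 : ¬ (i < x) := by omega
    have f2 : ¬ (i + 1 < x) := by omega
    simp [PMi_ga hi hm k0, PMi_gb hi hm k0, PMi_ga hi hm k1, PMi_gb hi hm k1, PMi_ga hi hm hm, PMi_gb hi hm hm, T_ga k1 k0, T_ga k1 k1, T_ga k1 hm, T_gb k1 k0, T_gb k1 k1, T_gb k1 hm, e1, e2, e3, e4, e5, e6, hi, mw, mul_assoc, PMi_ga hi hm hx, PMi_gb hi hm hx, T_ga k1 hx, T_gb k1 hx, c0, c1, c2, c3, f1, f2]
  by_cases c4 : x < m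
  · have f1 : i < x := by omega
    have f2 : i + 1 < x := by omega
    simp [PMi_ga hi hm k0, PMi_gb hi hm k0, PMi_ga hi hm k1, PMi_gb hi hm k1, PMi_ga hi hm hm, PMi_gb hi hm hm, T_ga k1 k0, T_ga k1 k1, T_ga k1 hm, T_gb k1 k0, T_gb k1 k1, T_gb k1 hm, e1, e2, e3, e4, e5, e6, hi, mw, mul_assoc, PMi_ga hi hm hx, PMi_gb hi hm hx, T_ga k1 hx, T_gb k1 hx, c0, c1, c2, c3, c4, f1, f2]
  · have f1 : i < x := by omega
    have f2 : i + 1 < x := by omega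
    simp [PMi_ga hi hm k0, PMi_gb hi hm k0, PMi_ga hi hm k1, PMi_gb hi hm k1, PMi_ga hi hm hm, PMi_gb hi hm hm, T_ga k1 k0, T_ga k1 k1, T_ga k1 hm, T_gb k1 k0, T_gb k1 k1, T_gb k1 hm, e1, e2, e3, e4, e5, e6, hi, mw, mul_assoc, PMi_ga hi hm hx, PMi_gb hi hm hx, T_ga k1 hx, T_gb k1 hx, c0, c1, c2, c3, c4, f1, f2]

end

end Pool.Agent.helper15.Hz
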