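import Mathlib
import Pool.Agent.helper15.Hz.EquivM

/-! # Equivariance of the push homomorphism under the twist along `μ_{i,i+1}`, II -/

namespace Pool.Agent.helper15.Hz

open Pool.Agent.helper35.Hz

variable {g m i : ℕ}

section
variable (hi : i + 1 < m) (hm : m < g)
include hi hm

theorem id1 :
    PMi g m i * tauM g i (i + 1) * pushA g m (i + 1) =
      pushA g m (i + 1) * (PMi g m i * tauM g i (i + 1)) := by
  have h0 : i < m ∧ m < g := ⟨by omega, hm⟩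
  have h1 : i + 1 < m ∧ m < g := ⟨hi, hm⟩
  have k0 : i < g := by omega
  have k1 : i + 1 < g := by omega
  have e1 : ¬ (m = i) := by omega
  have e2 : ¬ (m = i + 1) := by omega
  have e3 : ¬ (m < m) := by omega
  have e4 : ¬ (i + 1 = m) := by omega
  have e5 : ¬ (i = m) := by omega
  have e6 : i < m := by omega
  have qa : ∀ {x : ℕ}, x < g → _ := fun {x} hx => Q_ga hi hm (x := x) hx
  have qb : ∀ {x : ℕ}, x < g → _ := fun {x} hx => Q_gb hi hm (x := x) hx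
  generalize PMi g m i * tauM g i (i + 1) = Q at qa qb ⊢
  refine fg_aut_ext (fun x hx => ?_) (fun x hx => ?_)
  · simp only [MulAut.mul_apply]
    by_cases c1 : x = i + 1
    · subst c1
      simp [pushA_ga h1 k0, pushA_ga h1 k1, pushA_ga h1 hm, pushA_gb h1 k0, pushA_gb h1 k1, pushA_gb h1 hm, qa k0, qa k1, qa hm, qb k0, qb k1, qb hm, pAA, pAB, pAA', pAB', pBA, pBB, pBA', pBB', e1, e2, e3, e4, e5, e6, hi, mw, mul_assoc]
    by_cases c0 : x = i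
    · subst c0
      simp [pushA_ga h1 k0, pushA_ga h1 k1, pushA_ga h1 hm, pushA_gb h1 k0, pushA_gb h1 k1, pushA_gb h1 hm, qa k0, qa k1, qa hm, qb k0, qb k1, qb hm, pAA, pAB, pAA', pAB', pBA, pBB, pBA', pBB', e1, e2, e3, e4, e5, e6, hi, mw, mul_assoc]
    by_cases c2 : x = m
    · subst c2
      simp [pushA_ga h1 k0, pushA_ga h1 k1, pushA_ga h1 hm, pushA_gb h1 k0, pushA_gb h1 k1, pushA_gb h1 hm, qa k0, qa k1, qa hm, qb k0, qb k1, qb hm, pAA, pAB, pAA', pAB', pBA, pBB, pBA', pBB', e1, e2, e3, e4, e5, e6, hi, mw, mul_assoc]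
    by_cases c3 : x < i
    · have f1 : ¬ (i < x) := by omega
      have f2 : ¬ (i + 1 < x) := by omega
      simp [pushA_ga h1 k0, pushA_ga h1 k1, pushA_ga h1 hm, pushA_gb h1 k0, pushA_gb h1 k1, pushA_gb h1 hm, qa k0, qa k1, qa hm, qb k0, qb k1, qb hm, pAA, pAB, pAA', pAB', pBA, pBB, pBA', pBB', e1, e2, e3, e4, e5, e6, hi, mw, mul_assoc, pushA_ga h1 hx, pushA_gb h1 hx, qa hx, qb hx, c0, c1, c2, c3, f1, f2]
    by_cases c4 : x < m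
    · have f1 : i < x := by omega
      have f2 : i + 1 < x := by omega
      simp [pushA_ga h1 k0, pushA_ga h1 k1, pushA_ga h1 hm, pushA_gb h1 k0, pushA_gb h1 k1, pushA_gb h1 hm, qa k0, qa k1, qa hm, qb k0, qb k1, qb hm, pAA, pAB, pAA', pAB', pBA, pBB, pBA', pBB', e1, e2, e3, e4, e5, e6, hi, mw, mul_assoc, pushA_ga h1 hx, pushA_gb h1 hx, qa hx, qb hx, c0, c1, c2, c3, c4, f1, f2]
    · have f1 : i < x := by omega
      have f2 : i + 1 < x := by omega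
      simp [pushA_ga h1 k0, pushA_ga h1 k1, pushA_ga h1 hm, pushA_gb h1 k0, pushA_gb h1 k1, pushA_gb h1 hm, qa k0, qa k1, qa hm, qb k0, qb k1, qb hm, pAA, pAB, pAA', pAB', pBA, pBB, pBA', pBB', e1, e2, e3, e4, e5, e6, hi, mw, mul_assoc, pushA_ga h1 hx, pushA_gb h1 hx, qa hx, qb hx, c0, c1, c2, c3, c4, f1, f2]
  · simp only [MulAut.mul_apply]
    by_cases c1 : x = i + 1
    · subst c1
      simp [pushA_ga h1 k0, pushA_ga h1 k1, pushA_ga h1 hm, pushA_gb h1 k0, pushA_gb h1 k1, pushA_gb h1 hm, qa k0, qa k1, qa hm, qb k0, qb k1, qb hm, pAA, pAB, pAA', pAB', pBA, pBB, pBA', pBB', e1, e2, e3, e4, e5, e6, hi, mw, mul_assoc]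
    by_cases c0 : x = i
    · subst c0
      simp [pushA_ga h1 k0, pushA_ga h1 k1, pushA_ga h1 hm, pushA_gb h1 k0, pushA_gb h1 k1, pushA_gb h1 hm, qa k0, qa k1, qa hm, qb k0, qb k1, qb hm, pAA, pAB, pAA', pAB', pBA, pBB, pBA', pBB', e1, e2, e3, e4, e5, e6, hi, mw, mul_assoc]
    by_cases c2 : x = m
    · subst c2
      simp [pushA_ga h1 k0, pushA_ga h1 k1, pushA_ga h1 hm, pushA_gb h1 k0, pushA_gb h1 k1, pushA_gb h1 hm, qa k0, qa k1, qa hm, qb k0, qb k1, qb hm, pAA, pAB, pAA', pAB', pBA, pBB, pBA', pBB', e1, e2, e3, e4, e5, e6, hi, mw, mul_assoc]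
    by_cases c3 : x < i
    · have f1 : ¬ (i < x) := by omega
      have f2 : ¬ (i + 1 < x) := by omega
      simp [pushA_ga h1 k0, pushA_ga h1 k1, pushA_ga h1 hm, pushA_gb h1 k0, pushA_gb h1 k1, pushA_gb h1 hm, qa k0, qa k1, qa hm, qb k0, qb k1, qb hm, pAA, pAB, pAA', pAB', pBA, pBB, pBA', pBB', e1, e2, e3, e4, e5, e6, hi, mw, mul_assoc, pushA_ga h1 hx, pushA_gb h1 hx, qa hx, qb hx, c0, c1, c2, c3, f1, f2]
    by_cases c4 : x < m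
    · have f1 : i < x := by omega
      have f2 : i + 1 < x := by omega
      simp [pushA_ga h1 k0, pushA_ga h1 k1, pushA_ga h1 hm, pushA_gb h1 k0, pushA_gb h1 k1, pushA_gb h1 hm, qa k0, qa k1, qa hm, qb k0, qb k1, qb hm, pAA, pAB, pAA', pAB', pBA, pBB, pBA', pBB', e1, e2, e3, e4, e5, e6, hi, mw, mul_assoc, pushA_ga h1 hx, pushA_gb h1 hx, qa hx, qb hx, c0, c1, c2, c3, c4, f1, f2]
    · have f1 : i < x := by omega
      have f2 : i + 1 < x := by omega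
      simp [pushA_ga h1 k0, pushA_ga h1 k1, pushA_ga h1 hm, pushA_gb h1 k0, pushA_gb h1 k1, pushA_gb h1 hm, qa k0, qa k1, qa hm, qb k0, qb k1, qb hm, pAA, pAB, pAA', pAB', pBA, pBB, pBA', pBB', e1, e2, e3, e4, e5, e6, hi, mw, mul_assoc, pushA_ga h1 hx, pushA_gb h1 hx, qa hx, qb hx, c0, c1, c2, c3, c4, f1, f2]

theorem id2 :
    PMi g m i * tauM g i (i + 1) * pushB g m i =
      pushB g m i * tauA g m * tauM g i (i + 1) := by
  have h0 : i < m ∧ m < g := ⟨by omega, hm⟩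
  have h1 : i + 1 < m ∧ m < g := ⟨hi, hm⟩
  have k0 : i < g := by omega
  have k1 : i + 1 < g := by omega
  have e1 : ¬ (m = i) := by omega
  have e2 : ¬ (m = i + 1) := by omega
  have e3 : ¬ (m < m) := by omega
  have e4 : ¬ (i + 1 = m) := by omega
  have e5 : ¬ (i = m) := by omega
  have e6 : i < m := by omega
  have qa : ∀ {x : ℕ}, x < g → _ := fun {x} hx => Q_ga hi hm (x := x) hx
  have qb : ∀ {x : ℕ}, x < g → _ := fun {x} hx => Q_gb hi hm (x := x) hx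
  generalize PMi g m i * tauM g i (i + 1) = Q at qa qb ⊢
  refine fg_aut_ext (fun x hx => ?_) (fun x hx => ?_)
  · simp only [MulAut.mul_apply]
    by_cases c1 : x = i + 1
    · subst c1
      simp [pushB_ga h0 k0, pushB_ga h0 k1, pushB_ga h0 hm, pushB_gb h0 k0, pushB_gb h0 k1, pushB_gb h0 hm, T_ga k1 k0, T_ga k1 k1, T_ga k1 hm, T_gb k1 k0, T_gb k1 k1, T_gb k1 hm, A_ga _ k0, A_ga _ k1, A_ga _ hm, A_gb _ k0, A_gb _ k1, A_gb _ hm, qa k0, qa k1, qa hm, qb k0, qb k1, qb hm, pAA, pAB, pAA', pAB', pBA, pBB, pBA', pBB', e1, e2, e3, e4, e5, e6, hi, mw, mul_assoc]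
    by_cases c0 : x = i
    · subst c0
      simp [pushB_ga h0 k0, pushB_ga h0 k1, pushB_ga h0 hm, pushB_gb h0 k0, pushB_gb h0 k1, pushB_gb h0 hm, T_ga k1 k0, T_ga k1 k1, T_ga k1 hm, T_gb k1 k0, T_gb k1 k1, T_gb k1 hm, A_ga _ k0, A_ga _ k1, A_ga _ hm, A_gb _ k0, A_gb _ k1, A_gb _ hm, qa k0, qa k1, qa hm, qb k0, qb k1, qb hm, pAA, pAB, pAA', pAB', pBA, pBB, pBA', pBB', e1, e2, e3, e4, e5, e6, hi, mw, mul_assoc]
    by_cases c2 : x = m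
    · subst c2
      simp [pushB_ga h0 k0, pushB_ga h0 k1, pushB_ga h0 hm, pushB_gb h0 k0, pushB_gb h0 k1, pushB_gb h0 hm, T_ga k1 k0, T_ga k1 k1, T_ga k1 hm, T_gb k1 k0, T_gb k1 k1, T_gb k1 hm, A_ga _ k0, A_ga _ k1, A_ga _ hm, A_gb _ k0, A_gb _ k1, A_gb _ hm, qa k0, qa k1, qa hm, qb k0, qb k1, qb hm, pAA, pAB, pAA', pAB', pBA, pBB, pBA', pBB', e1, e2, e3, e4, e5, e6, hi, mw, mul_assoc]
    by_cases c3 : x < i
    · have f1 : ¬ (i < x) := by omega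
      have f2 : ¬ (i + 1 < x) := by omega
      simp [pushB_ga h0 k0, pushB_ga h0 k1, pushB_ga h0 hm, pushB_gb h0 k0, pushB_gb h0 k1, pushB_gb h0 hm, T_ga k1 k0, T_ga k1 k1, T_ga k1 hm, T_gb k1 k0, T_gb k1 k1, T_gb k1 hm, A_ga _ k0, A_ga _ k1, A_ga _ hm, A_gb _ k0, A_gb _ k1, A_gb _ hm, qa k0, qa k1, qa hm, qb k0, qb k1, qb hm, pAA, pAB, pAA', pAB', pBA, pBB, pBA', pBB', e1, e2, e3, e4, e5, e6, hi, mw, mul_assoc, pushB_ga h0 hx, pushB_gb h0 hx, T_ga k1 hx, T_gb k1 hx, A_ga _ hx, A_gb _ hx, qa hx, qb hx, c0, c1, c2, c3, f1, f2]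
    by_cases c4 : x < m
    · have f1 : i < x := by omega
      have f2 : i + 1 < x := by omega
      simp [pushB_ga h0 k0, pushB_ga h0 k1, pushB_ga h0 hm, pushB_gb h0 k0, pushB_gb h0 k1, pushB_gb h0 hm, T_ga k1 k0, T_ga k1 k1, T_ga k1 hm, T_gb k1 k0, T_gb k1 k1, T_gb k1 hm, A_ga _ k0, A_ga _ k1, A_ga _ hm, A_gb _ k0, A_gb _ k1, A_gb _ hm, qa k0, qa k1, qa hm, qb k0, qb k1, qb hm, pAA, pAB, pAA', pAB', pBA, pBB, pBA', pBB', e1, e2, e3, e4, e5, e6, hi, mw, mul_assoc, pushB_ga h0 hx, pushB_gb h0 hx, T_ga k1 hx, T_gb k1 hx, A_ga _ hx, A_gb _ hx, qa hx, qb hx, c0, c1, c2, c3, c4, f1, f2]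
    · have f1 : i < x := by omega
      have f2 : i + 1 < x := by omega
      simp [pushB_ga h0 k0, pushB_ga h0 k1, pushB_ga h0 hm, pushB_gb h0 k0, pushB_gb h0 k1, pushB_gb h0 hm, T_ga k1 k0, T_ga k1 k1, T_ga k1 hm, T_gb k1 k0, T_gb k1 k1, T_gb k1 hm, A_ga _ k0, A_ga _ k1, A_ga _ hm, A_gb _ k0, A_gb _ k1, A_gb _ hm, qa k0, qa k1, qa hm, qb k0, qb k1, qb hm, pAA, pAB, pAA', pAB', pBA, pBB, pBA', pBB', e1, e2, e3, e4, e5, e6, hi, mw, mul_assoc, pushB_ga h0 hx, pushB_gb h0 hx, T_ga k1 hx, T_gb k1 hx, A_ga _ hx, A_gb _ hx, qa hx, qb hx, c0, c1, c2, c3, c4, f1, f2]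
  · simp only [MulAut.mul_apply]
    by_cases c1 : x = i + 1
    · subst c1
      simp [pushB_ga h0 k0, pushB_ga h0 k1, pushB_ga h0 hm, pushB_gb h0 k0, pushB_gb h0 k1, pushB_gb h0 hm, T_ga k1 k0, T_ga k1 k1, T_ga k1 hm, T_gb k1 k0, T_gb k1 k1, T_gb k1 hm, A_ga _ k0, A_ga _ k1, A_ga _ hm, A_gb _ k0, A_gb _ k1, A_gb _ hm, qa k0, qa k1, qa hm, qb k0, qb k1, qb hm, pAA, pAB, pAA', pAB', pBA, pBB, pBA', pBB', e1, e2, e3, e4, e5, e6, hi, mw, mul_assoc]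
    by_cases c0 : x = i
    · subst c0
      simp [pushB_ga h0 k0, pushB_ga h0 k1, pushB_ga h0 hm, pushB_gb h0 k0, pushB_gb h0 k1, pushB_gb h0 hm, T_ga k1 k0, T_ga k1 k1, T_ga k1 hm, T_gb k1 k0, T_gb k1 k1, T_gb k1 hm, A_ga _ k0, A_ga _ k1, A_ga _ hm, A_gb _ k0, A_gb _ k1, A_gb _ hm, qa k0, qa k1, qa hm, qb k0, qb k1, qb hm, pAA, pAB, pAA', pAB', pBA, pBB, pBA', pBB', e1, e2, e3, e4, e5, e6, hi, mw, mul_assoc]
    by_cases c2 : x = m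
    · subst c2
      simp [pushB_ga h0 k0, pushB_ga h0 k1, pushB_ga h0 hm, pushB_gb h0 k0, pushB_gb h0 k1, pushB_gb h0 hm, T_ga k1 k0, T_ga k1 k1, T_ga k1 hm, T_gb k1 k0, T_gb k1 k1, T_gb k1 hm, A_ga _ k0, A_ga _ k1, A_ga _ hm, A_gb _ k0, A_gb _ k1, A_gb _ hm, qa k0, qa k1, qa hm, qb k0, qb k1, qb hm, pAA, pAB, pAA', pAB', pBA, pBB, pBA', pBB', e1, e2, e3, e4, e5, e6, hi, mw, mul_assoc]
    by_cases c3 : x < i
    · have f1 : ¬ (i < x) := by omega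
      have f2 : ¬ (i + 1 < x) := by omega
      simp [pushB_ga h0 k0, pushB_ga h0 k1, pushB_ga h0 hm, pushB_gb h0 k0, pushB_gb h0 k1, pushB_gb h0 hm, T_ga k1 k0, T_ga k1 k1, T_ga k1 hm, T_gb k1 k0, T_gb k1 k1, T_gb k1 hm, A_ga _ k0, A_ga _ k1, A_ga _ hm, A_gb _ k0, A_gb _ k1, A_gb _ hm, qa k0, qa k1, qa hm, qb k0, qb k1, qb hm, pAA, pAB, pAA', pAB', pBA, pBB, pBA', pBB', e1, e2, e3, e4, e5, e6, hi, mw, mul_assoc, pushB_ga h0 hx, pushB_gb h0 hx, T_ga k1 hx, T_gb k1 hx, A_ga _ hx, A_gb _ hx, qa hx, qb hx, c0, c1, c2, c3, f1, f2]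
    by_cases c4 : x < m
    · have f1 : i < x := by omega
      have f2 : i + 1 < x := by omega
      simp [pushB_ga h0 k0, pushB_ga h0 k1, pushB_ga h0 hm, pushB_gb h0 k0, pushB_gb h0 k1, pushB_gb h0 hm, T_ga k1 k0, T_ga k1 k1, T_ga k1 hm, T_gb k1 k0, T_gb k1 k1, T_gb k1 hm, A_ga _ k0, A_ga _ k1, A_ga _ hm, A_gb _ k0, A_gb _ k1, A_gb _ hm, qa k0, qa k1, qa hm, qb k0, qb k1, qb hm, pAA, pAB, pAA', pAB', pBA, pBB, pBA', pBB', e1, e2, e3, e4, e5, e6, hi, mw, mul_assoc, pushB_ga h0 hx, pushB_gb h0 hx, T_ga k1 hx, T_gb k1 hx, A_ga _ hx, A_gb _ hx, qa hx, qb hx, c0, c1, c2, c3, c4, f1, f2]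
    · have f1 : i < x := by omega
      have f2 : i + 1 < x := by omega
      simp [pushB_ga h0 k0, pushB_ga h0 k1, pushB_ga h0 hm, pushB_gb h0 k0, pushB_gb h0 k1, pushB_gb h0 hm, T_ga k1 k0, T_ga k1 k1, T_ga k1 hm, T_gb k1 k0, T_gb k1 k1, T_gb k1 hm, A_ga _ k0, A_ga _ k1, A_ga _ hm, A_gb _ k0, A_gb _ k1, A_gb _ hm, qa k0, qa k1, qa hm, qb k0, qb k1, qb hm, pAA, pAB, pAA', pAB', pBA, pBB, pBA', pBB', e1, e2, e3, e4, e5, e6, hi, mw, mul_assoc, pushB_ga h0 hx, pushB_gb h0 hx, T_ga k1 hx, T_gb k1 hx, A_ga _ hx, A_gb _ hx, qa hx, qb hx, c0, c1, c2, c3, c4, f1, f2]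

theorem id3 :
    tauM g i (i + 1) * pushB g m (i + 1) * tauA g m =
      pushB g m (i + 1) * (PMi g m i * tauM g i (i + 1)) := by
  have h0 : i < m ∧ m < g := ⟨by omega, hm⟩
  have h1 : i + 1 < m ∧ m < g := ⟨hi, hm⟩
  have k0 : i < g := by omega
  have k1 : i + 1 < g := by omega
  have e1 : ¬ (m = i) := by omega
  have e2 : ¬ (m = i + 1) := by omega
  have e3 : ¬ (m < m) := by omega
  have e4 : ¬ (i + 1 = m) := by omega
  have e5 : ¬ (i = m) := by omega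
  have e6 : i < m := by omega
  have qa : ∀ {x : ℕ}, x < g → _ := fun {x} hx => Q_ga hi hm (x := x) hx
  have qb : ∀ {x : ℕ}, x < g → _ := fun {x} hx => Q_gb hi hm (x := x) hx
  generalize PMi g m i * tauM g i (i + 1) = Q at qa qb ⊢
  refine fg_aut_ext (fun x hx => ?_) (fun x hx => ?_)
  · simp only [MulAut.mul_apply]
    by_cases c1 : x = i + 1
    · subst c1
      simp [pushB_ga h1 k0, pushB_ga h1 k1, pushB_ga h1 hm, pushB_gb h1 k0, pushB_gb h1 k1, pushB_gb h1 hm, T_ga k1 k0, T_ga k1 k1, T_ga k1 hm, T_gb k1 k0, T_gb k1 k1, T_gb k1 hm, A_ga _ k0, A_ga _ k1, A_ga _ hm, A_gb _ k0, A_gb _ k1, A_gb _ hm, qa k0, qa k1, qa hm, qb k0, qb k1, qb hm, pAA, pAB, pAA', pAB', pBA, pBB, pBA', pBB', e1, e2, e3, e4, e5, e6, hi, mw, mul_assoc]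
    by_cases c0 : x = i
    · subst c0
      simp [pushB_ga h1 k0, pushB_ga h1 k1, pushB_ga h1 hm, pushB_gb h1 k0, pushB_gb h1 k1, pushB_gb h1 hm, T_ga k1 k0, T_ga k1 k1, T_ga k1 hm, T_gb k1 k0, T_gb k1 k1, T_gb k1 hm, A_ga _ k0, A_ga _ k1, A_ga _ hm, A_gb _ k0, A_gb _ k1, A_gb _ hm, qa k0, qa k1, qa hm, qb k0, qb k1, qb hm, pAA, pAB, pAA', pAB', pBA, pBB, pBA', pBB', e1, e2, e3, e4, e5, e6, hi, mw, mul_assoc]
    by_cases c2 : x = m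
    · subst c2
      simp [pushB_ga h1 k0, pushB_ga h1 k1, pushB_ga h1 hm, pushB_gb h1 k0, pushB_gb h1 k1, pushB_gb h1 hm, T_ga k1 k0, T_ga k1 k1, T_ga k1 hm, T_gb k1 k0, T_gb k1 k1, T_gb k1 hm, A_ga _ k0, A_ga _ k1, A_ga _ hm, A_gb _ k0, A_gb _ k1, A_gb _ hm, qa k0, qa k1, qa hm, qb k0, qb k1, qb hm, pAA, pAB, pAA', pAB', pBA, pBB, pBA', pBB', e1, e2, e3, e4, e5, e6, hi, mw, mul_assoc]
    by_cases c3 : x < i
    · have f1 : ¬ (i < x) := by omega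
      have f2 : ¬ (i + 1 < x) := by omega
      simp [pushB_ga h1 k0, pushB_ga h1 k1, pushB_ga h1 hm, pushB_gb h1 k0, pushB_gb h1 k1, pushB_gb h1 hm, T_ga k1 k0, T_ga k1 k1, T_ga k1 hm, T_gb k1 k0, T_gb k1 k1, T_gb k1 hm, A_ga _ k0, A_ga _ k1, A_ga _ hm, A_gb _ k0, A_gb _ k1, A_gb _ hm, qa k0, qa k1, qa hm, qb k0, qb k1, qb hm, pAA, pAB, pAA', pAB', pBA, pBB, pBA', pBB', e1, e2, e3, e4, e5, e6, hi, mw, mul_assoc, pushB_ga h1 hx, pushB_gb h1 hx, T_ga k1 hx, T_gb k1 hx, A_ga _ hx, A_gb _ hx, qa hx, qb hx, c0, c1, c2, c3, f1, f2]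
    by_cases c4 : x < m
    · have f1 : i < x := by omega
      have f2 : i + 1 < x := by omega
      simp [pushB_ga h1 k0, pushB_ga h1 k1, pushB_ga h1 hm, pushB_gb h1 k0, pushB_gb h1 k1, pushB_gb h1 hm, T_ga k1 k0, T_ga k1 k1, T_ga k1 hm, T_gb k1 k0, T_gb k1 k1, T_gb k1 hm, A_ga _ k0, A_ga _ k1, A_ga _ hm, A_gb _ k0, A_gb _ k1, A_gb _ hm, qa k0, qa k1, qa hm, qb k0, qb k1, qb hm, pAA, pAB, pAA', pAB', pBA, pBB, pBA', pBB', e1, e2, e3, e4, e5, e6, hi, mw, mul_assoc, pushB_ga h1 hx, pushB_gb h1 hx, T_ga k1 hx, T_gb k1 hx, A_ga _ hx, A_gb _ hx, qa hx, qb hx, c0, c1, c2, c3, c4, f1, f2]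
    · have f1 : i < x := by omega
      have f2 : i + 1 < x := by omega
      simp [pushB_ga h1 k0, pushB_ga h1 k1, pushB_ga h1 hm, pushB_gb h1 k0, pushB_gb h1 k1, pushB_gb h1 hm, T_ga k1 k0, T_ga k1 k1, T_ga k1 hm, T_gb k1 k0, T_gb k1 k1, T_gb k1 hm, A_ga _ k0, A_ga _ k1, A_ga _ hm, A_gb _ k0, A_gb _ k1, A_gb _ hm, qa k0, qa k1, qa hm, qb k0, qb k1, qb hm, pAA, pAB, pAA', pAB', pBA, pBB, pBA', pBB', e1, e2, e3, e4, e5, e6, hi, mw, mul_assoc, pushB_ga h1 hx, pushB_gb h1 hx, T_ga k1 hx, T_gb k1 hx, A_ga _ hx, A_gb _ hx, qa hx, qb hx, c0, c1, c2, c3, c4, f1, f2]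
  · simp only [MulAut.mul_apply]
    by_cases c1 : x = i + 1
    · subst c1
      simp [pushB_ga h1 k0, pushB_ga h1 k1, pushB_ga h1 hm, pushB_gb h1 k0, pushB_gb h1 k1, pushB_gb h1 hm, T_ga k1 k0, T_ga k1 k1, T_ga k1 hm, T_gb k1 k0, T_gb k1 k1, T_gb k1 hm, A_ga _ k0, A_ga _ k1, A_ga _ hm, A_gb _ k0, A_gb _ k1, A_gb _ hm, qa k0, qa k1, qa hm, qb k0, qb k1, qb hm, pAA, pAB, pAA', pAB', pBA, pBB, pBA', pBB', e1, e2, e3, e4, e5, e6, hi, mw, mul_assoc]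
    by_cases c0 : x = i
    · subst c0
      simp [pushB_ga h1 k0, pushB_ga h1 k1, pushB_ga h1 hm, pushB_gb h1 k0, pushB_gb h1 k1, pushB_gb h1 hm, T_ga k1 k0, T_ga k1 k1, T_ga k1 hm, T_gb k1 k0, T_gb k1 k1, T_gb k1 hm, A_ga _ k0, A_ga _ k1, A_ga _ hm, A_gb _ k0, A_gb _ k1, A_gb _ hm, qa k0, qa k1, qa hm, qb k0, qb k1, qb hm, pAA, pAB, pAA', pAB', pBA, pBB, pBA', pBB', e1, e2, e3, e4, e5, e6, hi, mw, mul_assoc]
    by_cases c2 : x = m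
    · subst c2
      simp [pushB_ga h1 k0, pushB_ga h1 k1, pushB_ga h1 hm, pushB_gb h1 k0, pushB_gb h1 k1, pushB_gb h1 hm, T_ga k1 k0, T_ga k1 k1, T_ga k1 hm, T_gb k1 k0, T_gb k1 k1, T_gb k1 hm, A_ga _ k0, A_ga _ k1, A_ga _ hm, A_gb _ k0, A_gb _ k1, A_gb _ hm, qa k0, qa k1, qa hm, qb k0, qb k1, qb hm, pAA, pAB, pAA', pAB', pBA, pBB, pBA', pBB', e1, e2, e3, e4, e5, e6, hi, mw, mul_assoc]
    by_cases c3 : x < i
    · have f1 : ¬ (i < x) := by omega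
      have f2 : ¬ (i + 1 < x) := by omega
      simp [pushB_ga h1 k0, pushB_ga h1 k1, pushB_ga h1 hm, pushB_gb h1 k0, pushB_gb h1 k1, pushB_gb h1 hm, T_ga k1 k0, T_ga k1 k1, T_ga k1 hm, T_gb k1 k0, T_gb k1 k1, T_gb k1 hm, A_ga _ k0, A_ga _ k1, A_ga _ hm, A_gb _ k0, A_gb _ k1, A_gb _ hm, qa k0, qa k1, qa hm, qb k0, qb k1, qb hm, pAA, pAB, pAA', pAB', pBA, pBB, pBA', pBB', e1, e2, e3, e4, e5, e6, hi, mw, mul_assoc, pushB_ga h1 hx, pushB_gb h1 hx, T_ga k1 hx, T_gb k1 hx, A_ga _ hx, A_gb _ hx, qa hx, qb hx, c0, c1, c2, c3, f1, f2]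
    by_cases c4 : x < m
    · have f1 : i < x := by omega
      have f2 : i + 1 < x := by omega
      simp [pushB_ga h1 k0, pushB_ga h1 k1, pushB_ga h1 hm, pushB_gb h1 k0, pushB_gb h1 k1, pushB_gb h1 hm, T_ga k1 k0, T_ga k1 k1, T_ga k1 hm, T_gb k1 k0, T_gb k1 k1, T_gb k1 hm, A_ga _ k0, A_ga _ k1, A_ga _ hm, A_gb _ k0, A_gb _ k1, A_gb _ hm, qa k0, qa k1, qa hm, qb k0, qb k1, qb hm, pAA, pAB, pAA', pAB', pBA, pBB, pBA', pBB', e1, e2, e3, e4, e5, e6, hi, mw, mul_assoc, pushB_ga h1 hx, pushB_gb h1 hx, T_ga k1 hx, T_gb k1 hx, A_ga _ hx, A_gb _ hx, qa hx, qb hx, c0, c1, c2, c3, c4, f1, f2]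
    · have f1 : i < x := by omega
      have f2 : i + 1 < x := by omega
      simp [pushB_ga h1 k0, pushB_ga h1 k1, pushB_ga h1 hm, pushB_gb h1 k0, pushB_gb h1 k1, pushB_gb h1 hm, T_ga k1 k0, T_ga k1 k1, T_ga k1 hm, T_gb k1 k0, T_gb k1 k1, T_gb k1 hm, A_ga _ k0, A_ga _ k1, A_ga _ hm, A_gb _ k0, A_gb _ k1, A_gb _ hm, qa k0, qa k1, qa hm, qb k0, qb k1, qb hm, pAA, pAB, pAA', pAB', pBA, pBB, pBA', pBB', e1, e2, e3, e4, e5, e6, hi, mw, mul_assoc, pushB_ga h1 hx, pushB_gb h1 hx, T_ga k1 hx, T_gb k1 hx, A_ga _ hx, A_gb _ hx, qa hx, qb hx, c0, c1, c2, c3, c4, f1, f2]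

theorem id6 :
    tauM g i (i + 1) * tauA g m = tauA g m * tauM g i (i + 1) := by
  have h0 : i < m ∧ m < g := ⟨by omega, hm⟩
  have h1 : i + 1 < m ∧ m < g := ⟨hi, hm⟩
  have k0 : i < g := by omega
  have k1 : i + 1 < g := by omega
  have e1 : ¬ (m = i) := by omega
  have e2 : ¬ (m = i + 1) := by omega
  have e3 : ¬ (m < m) := by omega
  have e4 : ¬ (i + 1 = m) := by omega
  have e5 : ¬ (i = m) := by omega
  have e6 : i < m := by omega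
  refine fg_aut_ext (fun x hx => ?_) (fun x hx => ?_)
  · simp only [MulAut.mul_apply]
    by_cases c1 : x = i + 1
    · subst c1
      simp [T_ga k1 k0, T_ga k1 k1, T_ga k1 hm, T_gb k1 k0, T_gb k1 k1, T_gb k1 hm, A_ga _ k0, A_ga _ k1, A_ga _ hm, A_gb _ k0, A_gb _ k1, A_gb _ hm, pAA, pAB, pAA', pAB', pBA, pBB, pBA', pBB', e1, e2, e3, e4, e5, e6, hi, mw, mul_assoc]
    by_cases c0 : x = i
    · subst c0
      simp [T_ga k1 k0, T_ga k1 k1, T_ga k1 hm, T_gb k1 k0, T_gb k1 k1, T_gb k1 hm, A_ga _ k0, A_ga _ k1, A_ga _ hm, A_gb _ k0, A_gb _ k1, A_gb _ hm, pAA, pAB, pAA', pAB', pBA, pBB, pBA', pBB', e1, e2, e3, e4, e5, e6, hi, mw, mul_assoc]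
    by_cases c2 : x = m
    · subst c2
      simp [T_ga k1 k0, T_ga k1 k1, T_ga k1 hm, T_gb k1 k0, T_gb k1 k1, T_gb k1 hm, A_ga _ k0, A_ga _ k1, A_ga _ hm, A_gb _ k0, A_gb _ k1, A_gb _ hm, pAA, pAB, pAA', pAB', pBA, pBB, pBA', pBB', e1, e2, e3, e4, e5, e6, hi, mw, mul_assoc]
    by_cases c3 : x < i
    · have f1 : ¬ (i < x) := by omega
      have f2 : ¬ (i + 1 < x) := by omega
      simp [T_ga k1 k0, T_ga k1 k1, T_ga k1 hm, T_gb k1 k0, T_gb k1 k1, T_gb k1 hm, A_ga _ k0, A_ga _ k1, A_ga _ hm, A_gb _ k0, A_gb _ k1, A_gb _ hm, pAA, pAB, pAA', pAB', pBA, pBB, pBA', pBB', e1, e2, e3, e4, e5, e6, hi, mw, mul_assoc, T_ga k1 hx, T_gb k1 hx, A_ga _ hx, A_gb _ hx, c0, c1, c2, c3, f1, f2]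
    by_cases c4 : x < m
    · have f1 : i < x := by omega
      have f2 : i + 1 < x := by omega
      simp [T_ga k1 k0, T_ga k1 k1, T_ga k1 hm, T_gb k1 k0, T_gb k1 k1, T_gb k1 hm, A_ga _ k0, A_ga _ k1, A_ga _ hm, A_gb _ k0, A_gb _ k1, A_gb _ hm, pAA, pAB, pAA', pAB', pBA, pBB, pBA', pBB', e1, e2, e3, e4, e5, e6, hi, mw, mul_assoc, T_ga k1 hx, T_gb k1 hx, A_ga _ hx, A_gb _ hx, c0, c1, c2, c3, c4, f1, f2]
    · have f1 : i < x := by omega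
      have f2 : i + 1 < x := by omega
      simp [T_ga k1 k0, T_ga k1 k1, T_ga k1 hm, T_gb k1 k0, T_gb k1 k1, T_gb k1 hm, A_ga _ k0, A_ga _ k1, A_ga _ hm, A_gb _ k0, A_gb _ k1, A_gb _ hm, pAA, pAB, pAA', pAB', pBA, pBB, pBA', pBB', e1, e2, e3, e4, e5, e6, hi, mw, mul_assoc, T_ga k1 hx, T_gb k1 hx, A_ga _ hx, A_gb _ hx, c0, c1, c2, c3, c4, f1, f2]
  · simp only [MulAut.mul_apply]
    by_cases c1 : x = i + 1
    · subst c1
      simp [T_ga k1 k0, T_ga k1 k1, T_ga k1 hm, T_gb k1 k0, T_gb k1 k1, T_gb k1 hm, A_ga _ k0, A_ga _ k1, A_ga _ hm, A_gb _ k0, A_gb _ k1, A_gb _ hm, pAA, pAB, pAA', pAB', pBA, pBB, pBA', pBB', e1, e2, e3, e4, e5, e6, hi, mw, mul_assoc]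
    by_cases c0 : x = i
    · subst c0
      simp [T_ga k1 k0, T_ga k1 k1, T_ga k1 hm, T_gb k1 k0, T_gb k1 k1, T_gb k1 hm, A_ga _ k0, A_ga _ k1, A_ga _ hm, A_gb _ k0, A_gb _ k1, A_gb _ hm, pAA, pAB, pAA', pAB', pBA, pBB, pBA', pBB', e1, e2, e3, e4, e5, e6, hi, mw, mul_assoc]
    by_cases c2 : x = m
    · subst c2
      simp [T_ga k1 k0, T_ga k1 k1, T_ga k1 hm, T_gb k1 k0, T_gb k1 k1, T_gb k1 hm, A_ga _ k0, A_ga _ k1, A_ga _ hm, A_gb _ k0, A_gb _ k1, A_gb _ hm, pAA, pAB, pAA', pAB', pBA, pBB, pBA', pBB', e1, e2, e3, e4, e5, e6, hi, mw, mul_assoc]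
    by_cases c3 : x < i
    · have f1 : ¬ (i < x) := by omega
      have f2 : ¬ (i + 1 < x) := by omega
      simp [T_ga k1 k0, T_ga k1 k1, T_ga k1 hm, T_gb k1 k0, T_gb k1 k1, T_gb k1 hm, A_ga _ k0, A_ga _ k1, A_ga _ hm, A_gb _ k0, A_gb _ k1, A_gb _ hm, pAA, pAB, pAA', pAB', pBA, pBB, pBA', pBB', e1, e2, e3, e4, e5, e6, hi, mw, mul_assoc, T_ga k1 hx, T_gb k1 hx, A_ga _ hx, A_gb _ hx, c0, c1, c2, c3, f1, f2]
    by_cases c4 : x < m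
    · have f1 : i < x := by omega
      have f2 : i + 1 < x := by omega
      simp [T_ga k1 k0, T_ga k1 k1, T_ga k1 hm, T_gb k1 k0, T_gb k1 k1, T_gb k1 hm, A_ga _ k0, A_ga _ k1, A_ga _ hm, A_gb _ k0, A_gb _ k1, A_gb _ hm, pAA, pAB, pAA', pAB', pBA, pBB, pBA', pBB', e1, e2, e3, e4, e5, e6, hi, mw, mul_assoc, T_ga k1 hx, T_gb k1 hx, A_ga _ hx, A_gb _ hx, c0, c1, c2, c3, c4, f1, f2]
    · have f1 : i < x := by omega
      have f2 : i + 1 < x := by omega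
      simp [T_ga k1 k0, T_ga k1 k1, T_ga k1 hm, T_gb k1 k0, T_gb k1 k1, T_gb k1 hm, A_ga _ k0, A_ga _ k1, A_ga _ hm, A_gb _ k0, A_gb _ k1, A_gb _ hm, pAA, pAB, pAA', pAB', pBA, pBB, pBA', pBB', e1, e2, e3, e4, e5, e6, hi, mw, mul_assoc, T_ga k1 hx, T_gb k1 hx, A_ga _ hx, A_gb _ hx, c0, c1, c2, c3, c4, f1, f2]

theorem id4lt {l : ℕ} (hl : l < i) :
    tauM g i (i + 1) * pushA g m l = pushA g m l * tauM g i (i + 1) := by
  have h0 : i < m ∧ m < g := ⟨by omega, hm⟩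
  have h1 : i + 1 < m ∧ m < g := ⟨hi, hm⟩
  have k0 : i < g := by omega
  have k1 : i + 1 < g := by omega
  have e1 : ¬ (m = i) := by omega
  have e2 : ¬ (m = i + 1) := by omega
  have e3 : ¬ (m < m) := by omega
  have e4 : ¬ (i + 1 = m) := by omega
  have e5 : ¬ (i = m) := by omega
  have e6 : i < m := by omega
  have kl : l < g := by omega
  have hp : l < m ∧ m < g := ⟨by omega, hm⟩
  have e10 : ¬ (l = i) := by omega
  have e11 : ¬ (l = i + 1) := by omega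
  have e12 : ¬ (l = m) := by omega
  have e13 : ¬ (i = l) := by omega
  have e14 : ¬ (i + 1 = l) := by omega
  have e15 : ¬ (m = l) := by omega
  have e16 : l < i + 1 := by omega
  have e17 : l < m := by omega
  refine fg_aut_ext (fun x hx => ?_) (fun x hx => ?_)
  · simp only [MulAut.mul_apply]
    by_cases c0 : x = i + 1
    · subst c0
      simp [pushA_ga hp k0, pushA_ga hp k1, pushA_ga hp hm, pushA_ga hp kl, pushA_gb hp k0, pushA_gb hp k1, pushA_gb hp hm, pushA_gb hp kl, T_ga k1 k0, T_ga k1 k1, T_ga k1 hm, T_ga k1 kl, T_gb k1 k0, T_gb k1 k1, T_gb k1 hm, T_gb k1 kl, pAA, pAB, pAA', pAB', pBA, pBB, pBA', pBB', e1, e2, e3, e4, e5, e6, hi, mw, mul_assoc, e10, e11, e12, e13, e14, e15, e16, e17, hl]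
    by_cases c1 : x = i
    · subst c1
      simp [pushA_ga hp k0, pushA_ga hp k1, pushA_ga hp hm, pushA_ga hp kl, pushA_gb hp k0, pushA_gb hp k1, pushA_gb hp hm, pushA_gb hp kl, T_ga k1 k0, T_ga k1 k1, T_ga k1 hm, T_ga k1 kl, T_gb k1 k0, T_gb k1 k1, T_gb k1 hm, T_gb k1 kl, pAA, pAB, pAA', pAB', pBA, pBB, pBA', pBB', e1, e2, e3, e4, e5, e6, hi, mw, mul_assoc, e10, e11, e12, e13, e14, e15, e16, e17, hl]
    by_cases c2 : x = m
    · subst c2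
      simp [pushA_ga hp k0, pushA_ga hp k1, pushA_ga hp hm, pushA_ga hp kl, pushA_gb hp k0, pushA_gb hp k1, pushA_gb hp hm, pushA_gb hp kl, T_ga k1 k0, T_ga k1 k1, T_ga k1 hm, T_ga k1 kl, T_gb k1 k0, T_gb k1 k1, T_gb k1 hm, T_gb k1 kl, pAA, pAB, pAA', pAB', pBA, pBB, pBA', pBB', e1, e2, e3, e4, e5, e6, hi, mw, mul_assoc, e10, e11, e12, e13, e14, e15, e16, e17, hl]
    by_cases c3 : x = l
    · subst c3
      simp [pushA_ga hp k0, pushA_ga hp k1, pushA_ga hp hm, pushA_ga hp kl, pushA_gb hp k0, pushA_gb hp k1, pushA_gb hp hm, pushA_gb hp kl, T_ga k1 k0, T_ga k1 k1, T_ga k1 hm, T_ga k1 kl, T_gb k1 k0, T_gb k1 k1, T_gb k1 hm, T_gb k1 kl, pAA, pAB, pAA', pAB', pBA, pBB, pBA', pBB', e1, e2, e3, e4, e5, e6, hi, mw, mul_assoc, e10, e11, e12, e13, e14, e15, e16, e17, hl]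
    by_cases d0 : l < x
    · by_cases d2 : x < m
      · simp [pushA_ga hp k0, pushA_ga hp k1, pushA_ga hp hm, pushA_ga hp kl, pushA_gb hp k0, pushA_gb hp k1, pushA_gb hp hm, pushA_gb hp kl, T_ga k1 k0, T_ga k1 k1, T_ga k1 hm, T_ga k1 kl, T_gb k1 k0, T_gb k1 k1, T_gb k1 hm, T_gb k1 kl, pAA, pAB, pAA', pAB', pBA, pBB, pBA', pBB', e1, e2, e3, e4, e5, e6, hi, mw, mul_assoc, e10, e11, e12, e13, e14, e15, e16, e17, hl, pushA_ga hp hx, pushA_gb hp hx, T_ga k1 hx, T_gb k1 hx, c0, c1, c2, c3, d0, d2]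
      · simp [pushA_ga hp k0, pushA_ga hp k1, pushA_ga hp hm, pushA_ga hp kl, pushA_gb hp k0, pushA_gb hp k1, pushA_gb hp hm, pushA_gb hp kl, T_ga k1 k0, T_ga k1 k1, T_ga k1 hm, T_ga k1 kl, T_gb k1 k0, T_gb k1 k1, T_gb k1 hm, T_gb k1 kl, pAA, pAB, pAA', pAB', pBA, pBB, pBA', pBB', e1, e2, e3, e4, e5, e6, hi, mw, mul_assoc, e10, e11, e12, e13, e14, e15, e16, e17, hl, pushA_ga hp hx, pushA_gb hp hx, T_ga k1 hx, T_gb k1 hx, c0, c1, c2, c3, d0, d2]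
    · simp [pushA_ga hp k0, pushA_ga hp k1, pushA_ga hp hm, pushA_ga hp kl, pushA_gb hp k0, pushA_gb hp k1, pushA_gb hp hm, pushA_gb hp kl, T_ga k1 k0, T_ga k1 k1, T_ga k1 hm, T_ga k1 kl, T_gb k1 k0, T_gb k1 k1, T_gb k1 hm, T_gb k1 kl, pAA, pAB, pAA', pAB', pBA, pBB, pBA', pBB', e1, e2, e3, e4, e5, e6, hi, mw, mul_assoc, e10, e11, e12, e13, e14, e15, e16, e17, hl, pushA_ga hp hx, pushA_gb hp hx, T_ga k1 hx, T_gb k1 hx, c0, c1, c2, c3, d0]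
  · simp only [MulAut.mul_apply]
    by_cases c0 : x = i + 1
    · subst c0
      simp [pushA_ga hp k0, pushA_ga hp k1, pushA_ga hp hm, pushA_ga hp kl, pushA_gb hp k0, pushA_gb hp k1, pushA_gb hp hm, pushA_gb hp kl, T_ga k1 k0, T_ga k1 k1, T_ga k1 hm, T_ga k1 kl, T_gb k1 k0, T_gb k1 k1, T_gb k1 hm, T_gb k1 kl, pAA, pAB, pAA', pAB', pBA, pBB, pBA', pBB', e1, e2, e3, e4, e5, e6, hi, mw, mul_assoc, e10, e11, e12, e13, e14, e15, e16, e17, hl]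
    by_cases c1 : x = i
    · subst c1
      simp [pushA_ga hp k0, pushA_ga hp k1, pushA_ga hp hm, pushA_ga hp kl, pushA_gb hp k0, pushA_gb hp k1, pushA_gb hp hm, pushA_gb hp kl, T_ga k1 k0, T_ga k1 k1, T_ga k1 hm, T_ga k1 kl, T_gb k1 k0, T_gb k1 k1, T_gb k1 hm, T_gb k1 kl, pAA, pAB, pAA', pAB', pBA, pBB, pBA', pBB', e1, e2, e3, e4, e5, e6, hi, mw, mul_assoc, e10, e11, e12, e13, e14, e15, e16, e17, hl]
    by_cases c2 : x = m
    · subst c2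
      simp [pushA_ga hp k0, pushA_ga hp k1, pushA_ga hp hm, pushA_ga hp kl, pushA_gb hp k0, pushA_gb hp k1, pushA_gb hp hm, pushA_gb hp kl, T_ga k1 k0, T_ga k1 k1, T_ga k1 hm, T_ga k1 kl, T_gb k1 k0, T_gb k1 k1, T_gb k1 hm, T_gb k1 kl, pAA, pAB, pAA', pAB', pBA, pBB, pBA', pBB', e1, e2, e3, e4, e5, e6, hi, mw, mul_assoc, e10, e11, e12, e13, e14, e15, e16, e17, hl]
    by_cases c3 : x = l
    · subst c3
      simp [pushA_ga hp k0, pushA_ga hp k1, pushA_ga hp hm, pushA_ga hp kl, pushA_gb hp k0, pushA_gb hp k1, pushA_gb hp hm, pushA_gb hp kl, T_ga k1 k0, T_ga k1 k1, T_ga k1 hm, T_ga k1 kl, T_gb k1 k0, T_gb k1 k1, T_gb k1 hm, T_gb k1 kl, pAA, pAB, pAA', pAB', pBA, pBB, pBA', pBB', e1, e2, e3, e4, e5, e6, hi, mw, mul_assoc, e10, e11, e12, e13, e14, e15, e16, e17, hl]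
    by_cases d0 : l < x
    · by_cases d2 : x < m
      · simp [pushA_ga hp k0, pushA_ga hp k1, pushA_ga hp hm, pushA_ga hp kl, pushA_gb hp k0, pushA_gb hp k1, pushA_gb hp hm, pushA_gb hp kl, T_ga k1 k0, T_ga k1 k1, T_ga k1 hm, T_ga k1 kl, T_gb k1 k0, T_gb k1 k1, T_gb k1 hm, T_gb k1 kl, pAA, pAB, pAA', pAB', pBA, pBB, pBA', pBB', e1, e2, e3, e4, e5, e6, hi, mw, mul_assoc, e10, e11, e12, e13, e14, e15, e16, e17, hl, pushA_ga hp hx, pushA_gb hp hx, T_ga k1 hx, T_gb k1 hx, c0, c1, c2, c3, d0, d2]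
      · simp [pushA_ga hp k0, pushA_ga hp k1, pushA_ga hp hm, pushA_ga hp kl, pushA_gb hp k0, pushA_gb hp k1, pushA_gb hp hm, pushA_gb hp kl, T_ga k1 k0, T_ga k1 k1, T_ga k1 hm, T_ga k1 kl, T_gb k1 k0, T_gb k1 k1, T_gb k1 hm, T_gb k1 kl, pAA, pAB, pAA', pAB', pBA, pBB, pBA', pBB', e1, e2, e3, e4, e5, e6, hi, mw, mul_assoc, e10, e11, e12, e13, e14, e15, e16, e17, hl, pushA_ga hp hx, pushA_gb hp hx, T_ga k1 hx, T_gb k1 hx, c0, c1, c2, c3, d0, d2]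
    · simp [pushA_ga hp k0, pushA_ga hp k1, pushA_ga hp hm, pushA_ga hp kl, pushA_gb hp k0, pushA_gb hp k1, pushA_gb hp hm, pushA_gb hp kl, T_ga k1 k0, T_ga k1 k1, T_ga k1 hm, T_ga k1 kl, T_gb k1 k0, T_gb k1 k1, T_gb k1 hm, T_gb k1 kl, pAA, pAB, pAA', pAB', pBA, pBB, pBA', pBB', e1, e2, e3, e4, e5, e6, hi, mw, mul_assoc, e10, e11, e12, e13, e14, e15, e16, e17, hl, pushA_ga hp hx, pushA_gb hp hx, T_ga k1 hx, T_gb k1 hx, c0, c1, c2, c3, d0]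

theorem id4gt {l : ℕ} (hl : i + 1 < l) (hlm : l < m) :
    tauM g i (i + 1) * pushA g m l = pushA g m l * tauM g i (i + 1) := by
  have h0 : i < m ∧ m < g := ⟨by omega, hm⟩
  have h1 : i + 1 < m ∧ m < g := ⟨hi, hm⟩
  have k0 : i < g := by omega
  have k1 : i + 1 < g := by omega
  have e1 : ¬ (m = i) := by omega
  have e2 : ¬ (m = i + 1) := by omega
  have e3 : ¬ (m < m) := by omega
  have e4 : ¬ (i + 1 = m) := by omega
  have e5 : ¬ (i = m) := by omega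
  have e6 : i < m := by omega
  have kl : l < g := by omega
  have hp : l < m ∧ m < g := ⟨by omega, hm⟩
  have e10 : ¬ (l = i) := by omega
  have e11 : ¬ (l = i + 1) := by omega
  have e12 : ¬ (l = m) := by omega
  have e13 : ¬ (i = l) := by omega
  have e14 : ¬ (i + 1 = l) := by omega
  have e15 : ¬ (m = l) := by omega
  have e16 : ¬ (l < i + 1) := by omega
  have e17 : ¬ (l < i) := by omega
  refine fg_aut_ext (fun x hx => ?_) (fun x hx => ?_)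
  · simp only [MulAut.mul_apply]
    by_cases c0 : x = i + 1
    · subst c0
      simp [pushA_ga hp k0, pushA_ga hp k1, pushA_ga hp hm, pushA_ga hp kl, pushA_gb hp k0, pushA_gb hp k1, pushA_gb hp hm, pushA_gb hp kl, T_ga k1 k0, T_ga k1 k1, T_ga k1 hm, T_ga k1 kl, T_gb k1 k0, T_gb k1 k1, T_gb k1 hm, T_gb k1 kl, pAA, pAB, pAA', pAB', pBA, pBB, pBA', pBB', e1, e2, e3, e4, e5, e6, hi, mw, mul_assoc, e10, e11, e12, e13, e14, e15, e16, e17, hl]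
    by_cases c1 : x = i
    · subst c1
      simp [pushA_ga hp k0, pushA_ga hp k1, pushA_ga hp hm, pushA_ga hp kl, pushA_gb hp k0, pushA_gb hp k1, pushA_gb hp hm, pushA_gb hp kl, T_ga k1 k0, T_ga k1 k1, T_ga k1 hm, T_ga k1 kl, T_gb k1 k0, T_gb k1 k1, T_gb k1 hm, T_gb k1 kl, pAA, pAB, pAA', pAB', pBA, pBB, pBA', pBB', e1, e2, e3, e4, e5, e6, hi, mw, mul_assoc, e10, e11, e12, e13, e14, e15, e16, e17, hl]
    by_cases c2 : x = m
    · subst c2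
      simp [pushA_ga hp k0, pushA_ga hp k1, pushA_ga hp hm, pushA_ga hp kl, pushA_gb hp k0, pushA_gb hp k1, pushA_gb hp hm, pushA_gb hp kl, T_ga k1 k0, T_ga k1 k1, T_ga k1 hm, T_ga k1 kl, T_gb k1 k0, T_gb k1 k1, T_gb k1 hm, T_gb k1 kl, pAA, pAB, pAA', pAB', pBA, pBB, pBA', pBB', e1, e2, e3, e4, e5, e6, hi, mw, mul_assoc, e10, e11, e12, e13, e14, e15, e16, e17, hl]
    by_cases c3 : x = l
    · subst c3
      simp [pushA_ga hp k0, pushA_ga hp k1, pushA_ga hp hm, pushA_ga hp kl, pushA_gb hp k0, pushA_gb hp k1, pushA_gb hp hm, pushA_gb hp kl, T_ga k1 k0, T_ga k1 k1, T_ga k1 hm, T_ga k1 kl, T_gb k1 k0, T_gb k1 k1, T_gb k1 hm, T_gb k1 kl, pAA, pAB, pAA', pAB', pBA, pBB, pBA', pBB', e1, e2, e3, e4, e5, e6, hi, mw, mul_assoc, e10, e11, e12, e13, e14, e15, e16, e17, hl]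
    by_cases d0 : l < x
    · by_cases d2 : x < m
      · simp [pushA_ga hp k0, pushA_ga hp k1, pushA_ga hp hm, pushA_ga hp kl, pushA_gb hp k0, pushA_gb hp k1, pushA_gb hp hm, pushA_gb hp kl, T_ga k1 k0, T_ga k1 k1, T_ga k1 hm, T_ga k1 kl, T_gb k1 k0, T_gb k1 k1, T_gb k1 hm, T_gb k1 kl, pAA, pAB, pAA', pAB', pBA, pBB, pBA', pBB', e1, e2, e3, e4, e5, e6, hi, mw, mul_assoc, e10, e11, e12, e13, e14, e15, e16, e17, hl, pushA_ga hp hx, pushA_gb hp hx, T_ga k1 hx, T_gb k1 hx, c0, c1, c2, c3, d0, d2]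
      · simp [pushA_ga hp k0, pushA_ga hp k1, pushA_ga hp hm, pushA_ga hp kl, pushA_gb hp k0, pushA_gb hp k1, pushA_gb hp hm, pushA_gb hp kl, T_ga k1 k0, T_ga k1 k1, T_ga k1 hm, T_ga k1 kl, T_gb k1 k0, T_gb k1 k1, T_gb k1 hm, T_gb k1 kl, pAA, pAB, pAA', pAB', pBA, pBB, pBA', pBB', e1, e2, e3, e4, e5, e6, hi, mw, mul_assoc, e10, e11, e12, e13, e14, e15, e16, e17, hl, pushA_ga hp hx, pushA_gb hp hx, T_ga k1 hx, T_gb k1 hx, c0, c1, c2, c3, d0, d2]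
    · simp [pushA_ga hp k0, pushA_ga hp k1, pushA_ga hp hm, pushA_ga hp kl, pushA_gb hp k0, pushA_gb hp k1, pushA_gb hp hm, pushA_gb hp kl, T_ga k1 k0, T_ga k1 k1, T_ga k1 hm, T_ga k1 kl, T_gb k1 k0, T_gb k1 k1, T_gb k1 hm, T_gb k1 kl, pAA, pAB, pAA', pAB', pBA, pBB, pBA', pBB', e1, e2, e3, e4, e5, e6, hi, mw, mul_assoc, e10, e11, e12, e13, e14, e15, e16, e17, hl, pushA_ga hp hx, pushA_gb hp hx, T_ga k1 hx, T_gb k1 hx, c0, c1, c2, c3, d0]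
  · simp only [MulAut.mul_apply]
    by_cases c0 : x = i + 1
    · subst c0
      simp [pushA_ga hp k0, pushA_ga hp k1, pushA_ga hp hm, pushA_ga hp kl, pushA_gb hp k0, pushA_gb hp k1, pushA_gb hp hm, pushA_gb hp kl, T_ga k1 k0, T_ga k1 k1, T_ga k1 hm, T_ga k1 kl, T_gb k1 k0, T_gb k1 k1, T_gb k1 hm, T_gb k1 kl, pAA, pAB, pAA', pAB', pBA, pBB, pBA', pBB', e1, e2, e3, e4, e5, e6, hi, mw, mul_assoc, e10, e11, e12, e13, e14, e15, e16, e17, hl]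
    by_cases c1 : x = i
    · subst c1
      simp [pushA_ga hp k0, pushA_ga hp k1, pushA_ga hp hm, pushA_ga hp kl, pushA_gb hp k0, pushA_gb hp k1, pushA_gb hp hm, pushA_gb hp kl, T_ga k1 k0, T_ga k1 k1, T_ga k1 hm, T_ga k1 kl, T_gb k1 k0, T_gb k1 k1, T_gb k1 hm, T_gb k1 kl, pAA, pAB, pAA', pAB', pBA, pBB, pBA', pBB', e1, e2, e3, e4, e5, e6, hi, mw, mul_assoc, e10, e11, e12, e13, e14, e15, e16, e17, hl]
    by_cases c2 : x = m
    · subst c2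
      simp [pushA_ga hp k0, pushA_ga hp k1, pushA_ga hp hm, pushA_ga hp kl, pushA_gb hp k0, pushA_gb hp k1, pushA_gb hp hm, pushA_gb hp kl, T_ga k1 k0, T_ga k1 k1, T_ga k1 hm, T_ga k1 kl, T_gb k1 k0, T_gb k1 k1, T_gb k1 hm, T_gb k1 kl, pAA, pAB, pAA', pAB', pBA, pBB, pBA', pBB', e1, e2, e3, e4, e5, e6, hi, mw, mul_assoc, e10, e11, e12, e13, e14, e15, e16, e17, hl]
    by_cases c3 : x = l
    · subst c3
      simp [pushA_ga hp k0, pushA_ga hp k1, pushA_ga hp hm, pushA_ga hp kl, pushA_gb hp k0, pushA_gb hp k1, pushA_gb hp hm, pushA_gb hp kl, T_ga k1 k0, T_ga k1 k1, T_ga k1 hm, T_ga k1 kl, T_gb k1 k0, T_gb k1 k1, T_gb k1 hm, T_gb k1 kl, pAA, pAB, pAA', pAB', pBA, pBB, pBA', pBB', e1, e2, e3, e4, e5, e6, hi, mw, mul_assoc, e10, e11, e12, e13, e14, e15, e16, e17, hl]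
    by_cases d0 : l < x
    · by_cases d2 : x < m
      · simp [pushA_ga hp k0, pushA_ga hp k1, pushA_ga hp hm, pushA_ga hp kl, pushA_gb hp k0, pushA_gb hp k1, pushA_gb hp hm, pushA_gb hp kl, T_ga k1 k0, T_ga k1 k1, T_ga k1 hm, T_ga k1 kl, T_gb k1 k0, T_gb k1 k1, T_gb k1 hm, T_gb k1 kl, pAA, pAB, pAA', pAB', pBA, pBB, pBA', pBB', e1, e2, e3, e4, e5, e6, hi, mw, mul_assoc, e10, e11, e12, e13, e14, e15, e16, e17, hl, pushA_ga hp hx, pushA_gb hp hx, T_ga k1 hx, T_gb k1 hx, c0, c1, c2, c3, d0, d2]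
      · simp [pushA_ga hp k0, pushA_ga hp k1, pushA_ga hp hm, pushA_ga hp kl, pushA_gb hp k0, pushA_gb hp k1, pushA_gb hp hm, pushA_gb hp kl, T_ga k1 k0, T_ga k1 k1, T_ga k1 hm, T_ga k1 kl, T_gb k1 k0, T_gb k1 k1, T_gb k1 hm, T_gb k1 kl, pAA, pAB, pAA', pAB', pBA, pBB, pBA', pBB', e1, e2, e3, e4, e5, e6, hi, mw, mul_assoc, e10, e11, e12, e13, e14, e15, e16, e17, hl, pushA_ga hp hx, pushA_gb hp hx, T_ga k1 hx, T_gb k1 hx, c0, c1, c2, c3, d0, d2]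
    · simp [pushA_ga hp k0, pushA_ga hp k1, pushA_ga hp hm, pushA_ga hp kl, pushA_gb hp k0, pushA_gb hp k1, pushA_gb hp hm, pushA_gb hp kl, T_ga k1 k0, T_ga k1 k1, T_ga k1 hm, T_ga k1 kl, T_gb k1 k0, T_gb k1 k1, T_gb k1 hm, T_gb k1 kl, pAA, pAB, pAA', pAB', pBA, pBB, pBA', pBB', e1, e2, e3, e4, e5, e6, hi, mw, mul_assoc, e10, e11, e12, e13, e14, e15, e16, e17, hl, pushA_ga hp hx, pushA_gb hp hx, T_ga k1 hx, T_gb k1 hx, c0, c1, c2, c3, d0]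

theorem id4eq :
    tauM g i (i + 1) * pushA g m i = pushA g m i * tauM g i (i + 1) := by
  have h0 : i < m ∧ m < g := ⟨by omega, hm⟩
  have h1 : i + 1 < m ∧ m < g := ⟨hi, hm⟩
  have k0 : i < g := by omega
  have k1 : i + 1 < g := by omega
  have e1 : ¬ (m = i) := by omega
  have e2 : ¬ (m = i + 1) := by omega
  have e3 : ¬ (m < m) := by omega
  have e4 : ¬ (i + 1 = m) := by omega
  have e5 : ¬ (i = m) := by omega
  have e6 : i < m := by omega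
  refine fg_aut_ext (fun x hx => ?_) (fun x hx => ?_)
  · simp only [MulAut.mul_apply]
    by_cases c0 : x = i + 1
    · subst c0
      simp [pushA_ga h0 k0, pushA_ga h0 k1, pushA_ga h0 hm, pushA_gb h0 k0, pushA_gb h0 k1, pushA_gb h0 hm, T_ga k1 k0, T_ga k1 k1, T_ga k1 hm, T_gb k1 k0, T_gb k1 k1, T_gb k1 hm, pAA, pAB, pAA', pAB', pBA, pBB, pBA', pBB', e1, e2, e3, e4, e5, e6, hi, mw, mul_assoc]
    by_cases c1 : x = i
    · subst c1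
      simp [pushA_ga h0 k0, pushA_ga h0 k1, pushA_ga h0 hm, pushA_gb h0 k0, pushA_gb h0 k1, pushA_gb h0 hm, T_ga k1 k0, T_ga k1 k1, T_ga k1 hm, T_gb k1 k0, T_gb k1 k1, T_gb k1 hm, pAA, pAB, pAA', pAB', pBA, pBB, pBA', pBB', e1, e2, e3, e4, e5, e6, hi, mw, mul_assoc]
    by_cases c2 : x = m
    · subst c2
      simp [pushA_ga h0 k0, pushA_ga h0 k1, pushA_ga h0 hm, pushA_gb h0 k0, pushA_gb h0 k1, pushA_gb h0 hm, T_ga k1 k0, T_ga k1 k1, T_ga k1 hm, T_gb k1 k0, T_gb k1 k1, T_gb k1 hm, pAA, pAB, pAA', pAB', pBA, pBB, pBA', pBB', e1, e2, e3, e4, e5, e6, hi, mw, mul_assoc]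
    by_cases d0 : i < x
    · have d1 : i + 1 < x := by omega
      by_cases d2 : x < m
      · simp [pushA_ga h0 k0, pushA_ga h0 k1, pushA_ga h0 hm, pushA_gb h0 k0, pushA_gb h0 k1, pushA_gb h0 hm, T_ga k1 k0, T_ga k1 k1, T_ga k1 hm, T_gb k1 k0, T_gb k1 k1, T_gb k1 hm, pAA, pAB, pAA', pAB', pBA, pBB, pBA', pBB', e1, e2, e3, e4, e5, e6, hi, mw, mul_assoc, pushA_ga h0 hx, pushA_gb h0 hx, T_ga k1 hx, T_gb k1 hx, c0, c1, c2, d0, d1, d2]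
      · simp [pushA_ga h0 k0, pushA_ga h0 k1, pushA_ga h0 hm, pushA_gb h0 k0, pushA_gb h0 k1, pushA_gb h0 hm, T_ga k1 k0, T_ga k1 k1, T_ga k1 hm, T_gb k1 k0, T_gb k1 k1, T_gb k1 hm, pAA, pAB, pAA', pAB', pBA, pBB, pBA', pBB', e1, e2, e3, e4, e5, e6, hi, mw, mul_assoc, pushA_ga h0 hx, pushA_gb h0 hx, T_ga k1 hx, T_gb k1 hx, c0, c1, c2, d0, d1, d2]
    · have d1 : ¬ (i + 1 < x) := by omega
      simp [pushA_ga h0 k0, pushA_ga h0 k1, pushA_ga h0 hm, pushA_gb h0 k0, pushA_gb h0 k1, pushA_gb h0 hm, T_ga k1 k0, T_ga k1 k1, T_ga k1 hm, T_gb k1 k0, T_gb k1 k1, T_gb k1 hm, pAA, pAB, pAA', pAB', pBA, pBB, pBA', pBB', e1, e2, e3, e4, e5, e6, hi, mw, mul_assoc, pushA_ga h0 hx, pushA_gb h0 hx, T_ga k1 hx, T_gb k1 hx, c0, c1, c2, d0, d1]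
  · simp only [MulAut.mul_apply]
    by_cases c0 : x = i + 1
    · subst c0
      simp [pushA_ga h0 k0, pushA_ga h0 k1, pushA_ga h0 hm, pushA_gb h0 k0, pushA_gb h0 k1, pushA_gb h0 hm, T_ga k1 k0, T_ga k1 k1, T_ga k1 hm, T_gb k1 k0, T_gb k1 k1, T_gb k1 hm, pAA, pAB, pAA', pAB', pBA, pBB, pBA', pBB', e1, e2, e3, e4, e5, e6, hi, mw, mul_assoc]
    by_cases c1 : x = i
    · subst c1
      simp [pushA_ga h0 k0, pushA_ga h0 k1, pushA_ga h0 hm, pushA_gb h0 k0, pushA_gb h0 k1, pushA_gb h0 hm, T_ga k1 k0, T_ga k1 k1, T_ga k1 hm, T_gb k1 k0, T_gb k1 k1, T_gb k1 hm, pAA, pAB, pAA', pAB', pBA, pBB, pBA', pBB', e1, e2, e3, e4, e5, e6, hi, mw, mul_assoc]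
    by_cases c2 : x = m
    · subst c2
      simp [pushA_ga h0 k0, pushA_ga h0 k1, pushA_ga h0 hm, pushA_gb h0 k0, pushA_gb h0 k1, pushA_gb h0 hm, T_ga k1 k0, T_ga k1 k1, T_ga k1 hm, T_gb k1 k0, T_gb k1 k1, T_gb k1 hm, pAA, pAB, pAA', pAB', pBA, pBB, pBA', pBB', e1, e2, e3, e4, e5, e6, hi, mw, mul_assoc]
    by_cases d0 : i < x
    · have d1 : i + 1 < x := by omega
      by_cases d2 : x < m
      · simp [pushA_ga h0 k0, pushA_ga h0 k1, pushA_ga h0 hm, pushA_gb h0 k0, pushA_gb h0 k1, pushA_gb h0 hm, T_ga k1 k0, T_ga k1 k1, T_ga k1 hm, T_gb k1 k0, T_gb k1 k1, T_gb k1 hm, pAA, pAB, pAA', pAB', pBA, pBB, pBA', pBB', e1, e2, e3, e4, e5, e6, hi, mw, mul_assoc, pushA_ga h0 hx, pushA_gb h0 hx, T_ga k1 hx, T_gb k1 hx, c0, c1, c2, d0, d1, d2]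
      · simp [pushA_ga h0 k0, pushA_ga h0 k1, pushA_ga h0 hm, pushA_gb h0 k0, pushA_gb h0 k1, pushA_gb h0 hm, T_ga k1 k0, T_ga k1 k1, T_ga k1 hm, T_gb k1 k0, T_gb k1 k1, T_gb k1 hm, pAA, pAB, pAA', pAB', pBA, pBB, pBA', pBB', e1, e2, e3, e4, e5, e6, hi, mw, mul_assoc, pushA_ga h0 hx, pushA_gb h0 hx, T_ga k1 hx, T_gb k1 hx, c0, c1, c2, d0, d1, d2]
    · have d1 : ¬ (i + 1 < x) := by omega
      simp [pushA_ga h0 k0, pushA_ga h0 k1, pushA_ga h0 hm, pushA_gb h0 k0, pushA_gb h0 k1, pushA_gb h0 hm, T_ga k1 k0, T_ga k1 k1, T_ga k1 hm, T_gb k1 k0, T_gb k1 k1, T_gb k1 hm, pAA, pAB, pAA', pAB', pBA, pBB, pBA', pBB', e1, e2, e3, e4, e5, e6, hi, mw, mul_assoc, pushA_ga h0 hx, pushA_gb h0 hx, T_ga k1 hx, T_gb k1 hx, c0, c1, c2, d0, d1]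

theorem id5lt {l : ℕ} (hl : l < i) :
    tauM g i (i + 1) * pushB g m l = pushB g m l * tauM g i (i + 1) := by
  have h0 : i < m ∧ m < g := ⟨by omega, hm⟩
  have h1 : i + 1 < m ∧ m < g := ⟨hi, hm⟩
  have k0 : i < g := by omega
  have k1 : i + 1 < g := by omega
  have e1 : ¬ (m = i) := by omega
  have e2 : ¬ (m = i + 1) := by omega
  have e3 : ¬ (m < m) := by omega
  have e4 : ¬ (i + 1 = m) := by omega
  have e5 : ¬ (i = m) := by omega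
  have e6 : i < m := by omega
  have kl : l < g := by omega
  have hp : l < m ∧ m < g := ⟨by omega, hm⟩
  have e10 : ¬ (l = i) := by omega
  have e11 : ¬ (l = i + 1) := by omega
  have e12 : ¬ (l = m) := by omega
  have e13 : ¬ (i = l) := by omega
  have e14 : ¬ (i + 1 = l) := by omega
  have e15 : ¬ (m = l) := by omega
  have e16 : l < i + 1 := by omega
  have e17 : l < m := by omega
  refine fg_aut_ext (fun x hx => ?_) (fun x hx => ?_)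
  · simp only [MulAut.mul_apply]
    by_cases c0 : x = i + 1
    · subst c0
      simp [pushB_ga hp k0, pushB_ga hp k1, pushB_ga hp hm, pushB_ga hp kl, pushB_gb hp k0, pushB_gb hp k1, pushB_gb hp hm, pushB_gb hp kl, T_ga k1 k0, T_ga k1 k1, T_ga k1 hm, T_ga k1 kl, T_gb k1 k0, T_gb k1 k1, T_gb k1 hm, T_gb k1 kl, pAA, pAB, pAA', pAB', pBA, pBB, pBA', pBB', e1, e2, e3, e4, e5, e6, hi, mw, mul_assoc, e10, e11, e12, e13, e14, e15, e16, e17, hl]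
    by_cases c1 : x = i
    · subst c1
      simp [pushB_ga hp k0, pushB_ga hp k1, pushB_ga hp hm, pushB_ga hp kl, pushB_gb hp k0, pushB_gb hp k1, pushB_gb hp hm, pushB_gb hp kl, T_ga k1 k0, T_ga k1 k1, T_ga k1 hm, T_ga k1 kl, T_gb k1 k0, T_gb k1 k1, T_gb k1 hm, T_gb k1 kl, pAA, pAB, pAA', pAB', pBA, pBB, pBA', pBB', e1, e2, e3, e4, e5, e6, hi, mw, mul_assoc, e10, e11, e12, e13, e14, e15, e16, e17, hl]
    by_cases c2 : x = m
    · subst c2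
      simp [pushB_ga hp k0, pushB_ga hp k1, pushB_ga hp hm, pushB_ga hp kl, pushB_gb hp k0, pushB_gb hp k1, pushB_gb hp hm, pushB_gb hp kl, T_ga k1 k0, T_ga k1 k1, T_ga k1 hm, T_ga k1 kl, T_gb k1 k0, T_gb k1 k1, T_gb k1 hm, T_gb k1 kl, pAA, pAB, pAA', pAB', pBA, pBB, pBA', pBB', e1, e2, e3, e4, e5, e6, hi, mw, mul_assoc, e10, e11, e12, e13, e14, e15, e16, e17, hl]
    by_cases c3 : x = l
    · subst c3
      simp [pushB_ga hp k0, pushB_ga hp k1, pushB_ga hp hm, pushB_ga hp kl, pushB_gb hp k0, pushB_gb hp k1, pushB_gb hp hm, pushB_gb hp kl, T_ga k1 k0, T_ga k1 k1, T_ga k1 hm, T_ga k1 kl, T_gb k1 k0, T_gb k1 k1, T_gb k1 hm, T_gb k1 kl, pAA, pAB, pAA', pAB', pBA, pBB, pBA', pBB', e1, e2, e3, e4, e5, e6, hi, mw, mul_assoc, e10, e11, e12, e13, e14, e15, e16, e17, hl]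
    by_cases d0 : l < x
    · by_cases d2 : x < m
      · simp [pushB_ga hp k0, pushB_ga hp k1, pushB_ga hp hm, pushB_ga hp kl, pushB_gb hp k0, pushB_gb hp k1, pushB_gb hp hm, pushB_gb hp kl, T_ga k1 k0, T_ga k1 k1, T_ga k1 hm, T_ga k1 kl, T_gb k1 k0, T_gb k1 k1, T_gb k1 hm, T_gb k1 kl, pAA, pAB, pAA', pAB', pBA, pBB, pBA', pBB', e1, e2, e3, e4, e5, e6, hi, mw, mul_assoc, e10, e11, e12, e13, e14, e15, e16, e17, hl, pushB_ga hp hx, pushB_gb hp hx, T_ga k1 hx, T_gb k1 hx, c0, c1, c2, c3, d0, d2]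
      · simp [pushB_ga hp k0, pushB_ga hp k1, pushB_ga hp hm, pushB_ga hp kl, pushB_gb hp k0, pushB_gb hp k1, pushB_gb hp hm, pushB_gb hp kl, T_ga k1 k0, T_ga k1 k1, T_ga k1 hm, T_ga k1 kl, T_gb k1 k0, T_gb k1 k1, T_gb k1 hm, T_gb k1 kl, pAA, pAB, pAA', pAB', pBA, pBB, pBA', pBB', e1, e2, e3, e4, e5, e6, hi, mw, mul_assoc, e10, e11, e12, e13, e14, e15, e16, e17, hl, pushB_ga hp hx, pushB_gb hp hx, T_ga k1 hx, T_gb k1 hx, c0, c1, c2, c3, d0, d2]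
    · simp [pushB_ga hp k0, pushB_ga hp k1, pushB_ga hp hm, pushB_ga hp kl, pushB_gb hp k0, pushB_gb hp k1, pushB_gb hp hm, pushB_gb hp kl, T_ga k1 k0, T_ga k1 k1, T_ga k1 hm, T_ga k1 kl, T_gb k1 k0, T_gb k1 k1, T_gb k1 hm, T_gb k1 kl, pAA, pAB, pAA', pAB', pBA, pBB, pBA', pBB', e1, e2, e3, e4, e5, e6, hi, mw, mul_assoc, e10, e11, e12, e13, e14, e15, e16, e17, hl, pushB_ga hp hx, pushB_gb hp hx, T_ga k1 hx, T_gb k1 hx, c0, c1, c2, c3, d0]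
  · simp only [MulAut.mul_apply]
    by_cases c0 : x = i + 1
    · subst c0
      simp [pushB_ga hp k0, pushB_ga hp k1, pushB_ga hp hm, pushB_ga hp kl, pushB_gb hp k0, pushB_gb hp k1, pushB_gb hp hm, pushB_gb hp kl, T_ga k1 k0, T_ga k1 k1, T_ga k1 hm, T_ga k1 kl, T_gb k1 k0, T_gb k1 k1, T_gb k1 hm, T_gb k1 kl, pAA, pAB, pAA', pAB', pBA, pBB, pBA', pBB', e1, e2, e3, e4, e5, e6, hi, mw, mul_assoc, e10, e11, e12, e13, e14, e15, e16, e17, hl]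
    by_cases c1 : x = i
    · subst c1
      simp [pushB_ga hp k0, pushB_ga hp k1, pushB_ga hp hm, pushB_ga hp kl, pushB_gb hp k0, pushB_gb hp k1, pushB_gb hp hm, pushB_gb hp kl, T_ga k1 k0, T_ga k1 k1, T_ga k1 hm, T_ga k1 kl, T_gb k1 k0, T_gb k1 k1, T_gb k1 hm, T_gb k1 kl, pAA, pAB, pAA', pAB', pBA, pBB, pBA', pBB', e1, e2, e3, e4, e5, e6, hi, mw, mul_assoc, e10, e11, e12, e13, e14, e15, e16, e17, hl]
    by_cases c2 : x = m
    · subst c2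
      simp [pushB_ga hp k0, pushB_ga hp k1, pushB_ga hp hm, pushB_ga hp kl, pushB_gb hp k0, pushB_gb hp k1, pushB_gb hp hm, pushB_gb hp kl, T_ga k1 k0, T_ga k1 k1, T_ga k1 hm, T_ga k1 kl, T_gb k1 k0, T_gb k1 k1, T_gb k1 hm, T_gb k1 kl, pAA, pAB, pAA', pAB', pBA, pBB, pBA', pBB', e1, e2, e3, e4, e5, e6, hi, mw, mul_assoc, e10, e11, e12, e13, e14, e15, e16, e17, hl]
    by_cases c3 : x = l
    · subst c3
      simp [pushB_ga hp k0, pushB_ga hp k1, pushB_ga hp hm, pushB_ga hp kl, pushB_gb hp k0, pushB_gb hp k1, pushB_gb hp hm, pushB_gb hp kl, T_ga k1 k0, T_ga k1 k1, T_ga k1 hm, T_ga k1 kl, T_gb k1 k0, T_gb k1 k1, T_gb k1 hm, T_gb k1 kl, pAA, pAB, pAA', pAB', pBA, pBB, pBA', pBB', e1, e2, e3, e4, e5, e6, hi, mw, mul_assoc, e10, e11, e12, e13, e14, e15, e16, e17, hl]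
    by_cases d0 : l < x
    · by_cases d2 : x < m
      · simp [pushB_ga hp k0, pushB_ga hp k1, pushB_ga hp hm, pushB_ga hp kl, pushB_gb hp k0, pushB_gb hp k1, pushB_gb hp hm, pushB_gb hp kl, T_ga k1 k0, T_ga k1 k1, T_ga k1 hm, T_ga k1 kl, T_gb k1 k0, T_gb k1 k1, T_gb k1 hm, T_gb k1 kl, pAA, pAB, pAA', pAB', pBA, pBB, pBA', pBB', e1, e2, e3, e4, e5, e6, hi, mw, mul_assoc, e10, e11, e12, e13, e14, e15, e16, e17, hl, pushB_ga hp hx, pushB_gb hp hx, T_ga k1 hx, T_gb k1 hx, c0, c1, c2, c3, d0, d2]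
      · simp [pushB_ga hp k0, pushB_ga hp k1, pushB_ga hp hm, pushB_ga hp kl, pushB_gb hp k0, pushB_gb hp k1, pushB_gb hp hm, pushB_gb hp kl, T_ga k1 k0, T_ga k1 k1, T_ga k1 hm, T_ga k1 kl, T_gb k1 k0, T_gb k1 k1, T_gb k1 hm, T_gb k1 kl, pAA, pAB, pAA', pAB', pBA, pBB, pBA', pBB', e1, e2, e3, e4, e5, e6, hi, mw, mul_assoc, e10, e11, e12, e13, e14, e15, e16, e17, hl, pushB_ga hp hx, pushB_gb hp hx, T_ga k1 hx, T_gb k1 hx, c0, c1, c2, c3, d0, d2]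
    · simp [pushB_ga hp k0, pushB_ga hp k1, pushB_ga hp hm, pushB_ga hp kl, pushB_gb hp k0, pushB_gb hp k1, pushB_gb hp hm, pushB_gb hp kl, T_ga k1 k0, T_ga k1 k1, T_ga k1 hm, T_ga k1 kl, T_gb k1 k0, T_gb k1 k1, T_gb k1 hm, T_gb k1 kl, pAA, pAB, pAA', pAB', pBA, pBB, pBA', pBB', e1, e2, e3, e4, e5, e6, hi, mw, mul_assoc, e10, e11, e12, e13, e14, e15, e16, e17, hl, pushB_ga hp hx, pushB_gb hp hx, T_ga k1 hx, T_gb k1 hx, c0, c1, c2, c3, d0]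

theorem id5gt {l : ℕ} (hl : i + 1 < l) (hlm : l < m) :
    tauM g i (i + 1) * pushB g m l = pushB g m l * tauM g i (i + 1) := by
  have h0 : i < m ∧ m < g := ⟨by omega, hm⟩
  have h1 : i + 1 < m ∧ m < g := ⟨hi, hm⟩
  have k0 : i < g := by omega
  have k1 : i + 1 < g := by omega
  have e1 : ¬ (m = i) := by omega
  have e2 : ¬ (m = i + 1) := by omega
  have e3 : ¬ (m < m) := by omega
  have e4 : ¬ (i + 1 = m) := by omega
  have e5 : ¬ (i = m) := by omega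
  have e6 : i < m := by omega
  have kl : l < g := by omega
  have hp : l < m ∧ m < g := ⟨by omega, hm⟩
  have e10 : ¬ (l = i) := by omega
  have e11 : ¬ (l = i + 1) := by omega
  have e12 : ¬ (l = m) := by omega
  have e13 : ¬ (i = l) := by omega
  have e14 : ¬ (i + 1 = l) := by omega
  have e15 : ¬ (m = l) := by omega
  have e16 : ¬ (l < i + 1) := by omega
  have e17 : ¬ (l < i) := by omega
  refine fg_aut_ext (fun x hx => ?_) (fun x hx => ?_)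
  · simp only [MulAut.mul_apply]
    by_cases c0 : x = i + 1
    · subst c0
      simp [pushB_ga hp k0, pushB_ga hp k1, pushB_ga hp hm, pushB_ga hp kl, pushB_gb hp k0, pushB_gb hp k1, pushB_gb hp hm, pushB_gb hp kl, T_ga k1 k0, T_ga k1 k1, T_ga k1 hm, T_ga k1 kl, T_gb k1 k0, T_gb k1 k1, T_gb k1 hm, T_gb k1 kl, pAA, pAB, pAA', pAB', pBA, pBB, pBA', pBB', e1, e2, e3, e4, e5, e6, hi, mw, mul_assoc, e10, e11, e12, e13, e14, e15, e16, e17, hl]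
    by_cases c1 : x = i
    · subst c1
      simp [pushB_ga hp k0, pushB_ga hp k1, pushB_ga hp hm, pushB_ga hp kl, pushB_gb hp k0, pushB_gb hp k1, pushB_gb hp hm, pushB_gb hp kl, T_ga k1 k0, T_ga k1 k1, T_ga k1 hm, T_ga k1 kl, T_gb k1 k0, T_gb k1 k1, T_gb k1 hm, T_gb k1 kl, pAA, pAB, pAA', pAB', pBA, pBB, pBA', pBB', e1, e2, e3, e4, e5, e6, hi, mw, mul_assoc, e10, e11, e12, e13, e14, e15, e16, e17, hl]
    by_cases c2 : x = m
    · subst c2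
      simp [pushB_ga hp k0, pushB_ga hp k1, pushB_ga hp hm, pushB_ga hp kl, pushB_gb hp k0, pushB_gb hp k1, pushB_gb hp hm, pushB_gb hp kl, T_ga k1 k0, T_ga k1 k1, T_ga k1 hm, T_ga k1 kl, T_gb k1 k0, T_gb k1 k1, T_gb k1 hm, T_gb k1 kl, pAA, pAB, pAA', pAB', pBA, pBB, pBA', pBB', e1, e2, e3, e4, e5, e6, hi, mw, mul_assoc, e10, e11, e12, e13, e14, e15, e16, e17, hl]
    by_cases c3 : x = l
    · subst c3
      simp [pushB_ga hp k0, pushB_ga hp k1, pushB_ga hp hm, pushB_ga hp kl, pushB_gb hp k0, pushB_gb hp k1, pushB_gb hp hm, pushB_gb hp kl, T_ga k1 k0, T_ga k1 k1, T_ga k1 hm, T_ga k1 kl, T_gb k1 k0, T_gb k1 k1, T_gb k1 hm, T_gb k1 kl, pAA, pAB, pAA', pAB', pBA, pBB, pBA', pBB', e1, e2, e3, e4, e5, e6, hi, mw, mul_assoc, e10, e11, e12, e13, e14, e15, e16, e17, hl]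
    by_cases d0 : l < x
    · by_cases d2 : x < m
      · simp [pushB_ga hp k0, pushB_ga hp k1, pushB_ga hp hm, pushB_ga hp kl, pushB_gb hp k0, pushB_gb hp k1, pushB_gb hp hm, pushB_gb hp kl, T_ga k1 k0, T_ga k1 k1, T_ga k1 hm, T_ga k1 kl, T_gb k1 k0, T_gb k1 k1, T_gb k1 hm, T_gb k1 kl, pAA, pAB, pAA', pAB', pBA, pBB, pBA', pBB', e1, e2, e3, e4, e5, e6, hi, mw, mul_assoc, e10, e11, e12, e13, e14, e15, e16, e17, hl, pushB_ga hp hx, pushB_gb hp hx, T_ga k1 hx, T_gb k1 hx, c0, c1, c2, c3, d0, d2]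
      · simp [pushB_ga hp k0, pushB_ga hp k1, pushB_ga hp hm, pushB_ga hp kl, pushB_gb hp k0, pushB_gb hp k1, pushB_gb hp hm, pushB_gb hp kl, T_ga k1 k0, T_ga k1 k1, T_ga k1 hm, T_ga k1 kl, T_gb k1 k0, T_gb k1 k1, T_gb k1 hm, T_gb k1 kl, pAA, pAB, pAA', pAB', pBA, pBB, pBA', pBB', e1, e2, e3, e4, e5, e6, hi, mw, mul_assoc, e10, e11, e12, e13, e14, e15, e16, e17, hl, pushB_ga hp hx, pushB_gb hp hx, T_ga k1 hx, T_gb k1 hx, c0, c1, c2, c3, d0, d2]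
    · simp [pushB_ga hp k0, pushB_ga hp k1, pushB_ga hp hm, pushB_ga hp kl, pushB_gb hp k0, pushB_gb hp k1, pushB_gb hp hm, pushB_gb hp kl, T_ga k1 k0, T_ga k1 k1, T_ga k1 hm, T_ga k1 kl, T_gb k1 k0, T_gb k1 k1, T_gb k1 hm, T_gb k1 kl, pAA, pAB, pAA', pAB', pBA, pBB, pBA', pBB', e1, e2, e3, e4, e5, e6, hi, mw, mul_assoc, e10, e11, e12, e13, e14, e15, e16, e17, hl, pushB_ga hp hx, pushB_gb hp hx, T_ga k1 hx, T_gb k1 hx, c0, c1, c2, c3, d0]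
  · simp only [MulAut.mul_apply]
    by_cases c0 : x = i + 1
    · subst c0
      simp [pushB_ga hp k0, pushB_ga hp k1, pushB_ga hp hm, pushB_ga hp kl, pushB_gb hp k0, pushB_gb hp k1, pushB_gb hp hm, pushB_gb hp kl, T_ga k1 k0, T_ga k1 k1, T_ga k1 hm, T_ga k1 kl, T_gb k1 k0, T_gb k1 k1, T_gb k1 hm, T_gb k1 kl, pAA, pAB, pAA', pAB', pBA, pBB, pBA', pBB', e1, e2, e3, e4, e5, e6, hi, mw, mul_assoc, e10, e11, e12, e13, e14, e15, e16, e17, hl]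
    by_cases c1 : x = i
    · subst c1
      simp [pushB_ga hp k0, pushB_ga hp k1, pushB_ga hp hm, pushB_ga hp kl, pushB_gb hp k0, pushB_gb hp k1, pushB_gb hp hm, pushB_gb hp kl, T_ga k1 k0, T_ga k1 k1, T_ga k1 hm, T_ga k1 kl, T_gb k1 k0, T_gb k1 k1, T_gb k1 hm, T_gb k1 kl, pAA, pAB, pAA', pAB', pBA, pBB, pBA', pBB', e1, e2, e3, e4, e5, e6, hi, mw, mul_assoc, e10, e11, e12, e13, e14, e15, e16, e17, hl]
    by_cases c2 : x = m
    · subst c2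
      simp [pushB_ga hp k0, pushB_ga hp k1, pushB_ga hp hm, pushB_ga hp kl, pushB_gb hp k0, pushB_gb hp k1, pushB_gb hp hm, pushB_gb hp kl, T_ga k1 k0, T_ga k1 k1, T_ga k1 hm, T_ga k1 kl, T_gb k1 k0, T_gb k1 k1, T_gb k1 hm, T_gb k1 kl, pAA, pAB, pAA', pAB', pBA, pBB, pBA', pBB', e1, e2, e3, e4, e5, e6, hi, mw, mul_assoc, e10, e11, e12, e13, e14, e15, e16, e17, hl]
    by_cases c3 : x = l
    · subst c3
      simp [pushB_ga hp k0, pushB_ga hp k1, pushB_ga hp hm, pushB_ga hp kl, pushB_gb hp k0, pushB_gb hp k1, pushB_gb hp hm, pushB_gb hp kl, T_ga k1 k0, T_ga k1 k1, T_ga k1 hm, T_ga k1 kl, T_gb k1 k0, T_gb k1 k1, T_gb k1 hm, T_gb k1 kl, pAA, pAB, pAA', pAB', pBA, pBB, pBA', pBB', e1, e2, e3, e4, e5, e6, hi, mw, mul_assoc, e10, e11, e12, e13, e14, e15, e16, e17, hl]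
    by_cases d0 : l < x
    · by_cases d2 : x < m
      · simp [pushB_ga hp k0, pushB_ga hp k1, pushB_ga hp hm, pushB_ga hp kl, pushB_gb hp k0, pushB_gb hp k1, pushB_gb hp hm, pushB_gb hp kl, T_ga k1 k0, T_ga k1 k1, T_ga k1 hm, T_ga k1 kl, T_gb k1 k0, T_gb k1 k1, T_gb k1 hm, T_gb k1 kl, pAA, pAB, pAA', pAB', pBA, pBB, pBA', pBB', e1, e2, e3, e4, e5, e6, hi, mw, mul_assoc, e10, e11, e12, e13, e14, e15, e16, e17, hl, pushB_ga hp hx, pushB_gb hp hx, T_ga k1 hx, T_gb k1 hx, c0, c1, c2, c3, d0, d2]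
      · simp [pushB_ga hp k0, pushB_ga hp k1, pushB_ga hp hm, pushB_ga hp kl, pushB_gb hp k0, pushB_gb hp k1, pushB_gb hp hm, pushB_gb hp kl, T_ga k1 k0, T_ga k1 k1, T_ga k1 hm, T_ga k1 kl, T_gb k1 k0, T_gb k1 k1, T_gb k1 hm, T_gb k1 kl, pAA, pAB, pAA', pAB', pBA, pBB, pBA', pBB', e1, e2, e3, e4, e5, e6, hi, mw, mul_assoc, e10, e11, e12, e13, e14, e15, e16, e17, hl, pushB_ga hp hx, pushB_gb hp hx, T_ga k1 hx, T_gb k1 hx, c0, c1, c2, c3, d0, d2]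
    · simp [pushB_ga hp k0, pushB_ga hp k1, pushB_ga hp hm, pushB_ga hp kl, pushB_gb hp k0, pushB_gb hp k1, pushB_gb hp hm, pushB_gb hp kl, T_ga k1 k0, T_ga k1 k1, T_ga k1 hm, T_ga k1 kl, T_gb k1 k0, T_gb k1 k1, T_gb k1 hm, T_gb k1 kl, pAA, pAB, pAA', pAB', pBA, pBB, pBA', pBB', e1, e2, e3, e4, e5, e6, hi, mw, mul_assoc, e10, e11, e12, e13, e14, e15, e16, e17, hl, pushB_ga hp hx, pushB_gb hp hx, T_ga k1 hx, T_gb k1 hx, c0, c1, c2, c3, d0]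

end

end Pool.Agent.helper15.Hz
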