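import Mathlib
import Pool.Agent.helper15.Hz.EquivM2

/-! # Equivariance of the push homomorphism under the twist along `μ_{i,i+1}`, III (module B part 2) -/

namespace Pool.Agent.helper15.Hz

open Pool.Agent.helper35.Hz

theorem phi_ga {g m l : ℕ} (hl : l < m) : phi g m (ga m l) = pushA g m l := mkHom_ga _ _ hl

theorem phi_gb {g m l : ℕ} (hl : l < m) : phi g m (gb m l) = pushB g m l := mkHom_gb _ _ hl

theorem phi_mw {g m i : ℕ} (hi : i + 1 < m) : phi g m (mw m i) = (PMi g m i)⁻¹ := by
  have h0 : i < m := by omega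
  simp [mw, PMi, phi_ga, phi_gb, h0, hi, mul_assoc]

theorem equiv_M_a {g m i l : ℕ} (hi : i + 1 < m) (hm : m < g) (hl : l < m) :
    tauM g i (i + 1) * phi g m (ga m l) * (tauM g i (i + 1))⁻¹ =
      phi g m (tauM m i (i + 1) (ga m l)) := by
  rw [T_ga hi hl, phi_ga hl]
  rcases lt_trichotomy l i with c | c | c
  · rw [if_neg (by omega), phi_ga hl, id4lt hi hm c, mul_inv_cancel_right]
  · subst c
    rw [if_neg (by omega), phi_ga hl, id4eq hi hm, mul_inv_cancel_right]
  · by_cases c2 : l = i + 1
    · subst c2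
      rw [if_pos rfl, map_mul, map_mul, map_inv, phi_mw hi, phi_ga hl, inv_inv, mul_inv_eq_iff_eq_mul]
      have := id1 hi hm
      rw [mul_assoc] at this
      rw [eq_inv_mul_of_mul_eq this]
      simp only [mul_assoc]
    · rw [if_neg c2, phi_ga hl, id4gt hi hm (by omega) hl, mul_inv_cancel_right]

theorem equiv_M_b {g m i l : ℕ} (hi : i + 1 < m) (hm : m < g) (hl : l < m) :
    tauM g i (i + 1) * phi g m (gb m l) * (tauM g i (i + 1))⁻¹ =
      phi g m (tauM m i (i + 1) (gb m l)) *
        (if l = i then tauA g m else if l = i + 1 then (tauA g m)⁻¹ else 1) := by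
  rw [T_gb hi hl, phi_gb hl]
  rcases lt_trichotomy l i with c | c | c
  · rw [if_neg (by omega), if_neg (by omega), if_neg (by omega), if_neg (by omega), phi_gb hl,
      id5lt hi hm c, mul_inv_cancel_right, mul_one]
  · subst c
    rw [if_pos rfl, if_pos rfl, map_mul, phi_mw hi, phi_gb hl, mul_inv_eq_iff_eq_mul]
    have := id2 hi hm
    rw [mul_assoc] at this
    rw [eq_inv_mul_of_mul_eq this]
    simp only [mul_assoc]
  · by_cases c2 : l = i + 1
    · subst c2
      rw [if_neg (by omega), if_pos rfl, if_neg (by omega), if_pos rfl, map_mul, map_inv, phi_mw hi,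
        phi_gb hl, inv_inv, mul_inv_eq_iff_eq_mul]
      have h3 := id3 hi hm
      have h6 := id6 hi hm
      have h7 : (tauA g m)⁻¹ * tauM g i (i + 1) = tauM g i (i + 1) * (tauA g m)⁻¹ := by
        rw [inv_mul_eq_iff_eq_mul, ← mul_assoc, ← h6, mul_inv_cancel_right]
      rw [mul_assoc, h7, ← mul_assoc, eq_mul_inv_iff_mul_eq, h3]
      simp only [mul_assoc]
    · rw [if_neg (by omega), if_neg c2, if_neg (by omega), if_neg c2, phi_gb hl,
        id5gt hi hm (by omega) hl, mul_inv_cancel_right, mul_one]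

end Pool.Agent.helper15.Hz
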